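import Pool.Agent.H667.UF.Cpt
import Pool.Agent.H667.FI.Rig

set_option autoImplicit false

/-!
The dichotomy for analytic classes of structures in which every orbit of the automorphism group
meets only finitely many classes of interchangeable points.
-/

namespace Pool.Agent.H667.UF

open FirstOrder Set MeasureTheory
open Pool.Agent.H565R2.FO2 (Interp Code toI ofI toI_ofI Iso meas_toI)
open Pool.Agent.H565R2.LO2 (PerfK)
open Pool.Agent.H667.FI (IsAut Sw Enm EC EK EIso meas_EK eiso_refl eiso_symm eiso_trans exists_enm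
  enm_unique sw_map sw_trans sw_symm aut_trans aut_symm polish_code)

variable {L : FirstOrder.Language.{0, 0}}

/-- Every orbit meets only finitely many classes of interchangeable points. -/
def FO (I : Interp L ℕ) : Prop := ∀ x, ∃ T : Finset ℕ, ∀ g : ℕ ≃ ℕ, IsAut I g →
  ∃ y ∈ T, Sw I (g x) y

/-- The orbits of the enumerated structure are finite. -/
theorem orb_fin {I : Interp L ℕ} (hI : FO I) {e : ℕ → ℕ} (he : Enm I e) (x : ℕ) :
    {y | ∃ g : ℕ ≃ ℕ, IsAut I g ∧ (∀ z, e (g z) = e z) ∧ g x = y}.Finite := by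
  obtain ⟨T, hT⟩ := hI x
  have : {y | ∃ g : ℕ ≃ ℕ, IsAut I g ∧ (∀ z, e (g z) = e z) ∧ g x = y} ⊆
      ⋃ t ∈ T, {y | Sw I y t ∧ e y = e x} := by
    rintro y ⟨g, h1, h2, rfl⟩
    obtain ⟨t, ht, ht'⟩ := hT g h1
    exact Set.mem_iUnion₂.2 ⟨t, ht, ht', h2 x⟩
  refine Set.Finite.subset (Set.Finite.biUnion T.finite_toSet fun t _ => ?_) this
  refine Set.Subsingleton.finite ?_
  rintro y ⟨h1, h2⟩ y' ⟨h1', h2'⟩
  exact he.1 _ _ (sw_trans h1 (sw_symm h1')) (h2.trans h2'.symm)

section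

variable [∀ n, Countable (L.Relations n)]

/-- The conditions for isomorphisms of enumerated structures. -/
abbrev Idx (L : FirstOrder.Language.{0, 0}) : Type :=
  (ℕ × ℕ) ⊕ (ℕ × ℕ) ⊕ (ℕ × ℕ) ⊕ (Σ n : ℕ, L.Relations n × (Fin n → ℕ) × (Fin n → ℕ))

/-- The function coded by `p`. -/
def fw (p : ℕ → ℕ) (x : ℕ) : ℕ := (Nat.unpair (p x)).1

/-- The inverse function coded by `p`. -/
def bw (p : ℕ → ℕ) (x : ℕ) : ℕ := (Nat.unpair (p x)).2

/-- The conditions. -/
def Cond (i : Idx L) (q : EC L × EC L) (p : ℕ → ℕ) : Prop :=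
  match i with
  | .inl (x, y) => fw p x = y → bw p y = x
  | .inr (.inl (x, y)) => bw p x = y → fw p y = x
  | .inr (.inr (.inl (x, y))) => fw p x = y → q.1.2 x = q.2.2 y
  | .inr (.inr (.inr ⟨n, R, t, s⟩)) => (∀ k, fw p (t k) = s k) → q.1.1 ⟨n, R, t⟩ = q.2.1 ⟨n, R, s⟩

omit [∀ n, Countable (L.Relations n)] in
theorem clopen_fw (x y : ℕ) : IsClopen {p : ℕ → ℕ | fw p x = y} :=
  IsClopen.preimage (f := fun p : ℕ → ℕ => p x) (s := {m | (Nat.unpair m).1 = y})
    (isClopen_discrete _) (continuous_apply x)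

omit [∀ n, Countable (L.Relations n)] in
theorem clopen_bw (x y : ℕ) : IsClopen {p : ℕ → ℕ | bw p x = y} :=
  IsClopen.preimage (f := fun p : ℕ → ℕ => p x) (s := {m | (Nat.unpair m).2 = y})
    (isClopen_discrete _) (continuous_apply x)

theorem clopen_imp {X : Type} [TopologicalSpace X] {P Q : X → Prop} (hP : IsClopen {x | P x})
    (hQ : IsClopen {x | Q x}) : IsClopen {x | P x → Q x} := by
  have : {x | P x → Q x} = {x | P x}ᶜ ∪ {x | Q x} := by
    ext x
    simp only [Set.mem_ofPred_eq, Set.mem_union, Set.mem_compl_iff]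
    exact imp_iff_not_or
  rw [this]
  exact hP.compl.union hQ

theorem clopen_const {X : Type} [TopologicalSpace X] (P : Prop) : IsClopen {_x : X | P} := by
  by_cases h : P
  · simp only [h]
    exact isClopen_univ
  · simp only [h]
    exact isClopen_empty

omit [∀ n, Countable (L.Relations n)] in
theorem clopen_cond (i : Idx L) (q : EC L × EC L) : IsClopen {p | Cond i q p} := by
  match i with
  | .inl (x, y) => exact clopen_imp (clopen_fw x y) (clopen_bw y x)
  | .inr (.inl (x, y)) => exact clopen_imp (clopen_bw x y) (clopen_fw y x)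
  | .inr (.inr (.inl (x, y))) => exact clopen_imp (clopen_fw x y) (clopen_const _)
  | .inr (.inr (.inr ⟨n, R, t, s⟩)) =>
    refine clopen_imp (P := fun p => ∀ k, fw p (t k) = s k) ?_ (clopen_const _)
    have : {p : ℕ → ℕ | ∀ k, fw p (t k) = s k} = ⋂ k, {p | fw p (t k) = s k} := by
      ext p; simp
    rw [this]
    exact isClopen_iInter_of_finite fun k => clopen_fw _ _

omit [∀ n, Countable (L.Relations n)] in
theorem meas_cond (i : Idx L) :
    MeasurableSet {r : (EC L × EC L) × (ℕ → ℕ) | Cond i r.1 r.2} := by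
  have h1 : ∀ x y, Measurable fun r : (EC L × EC L) × (ℕ → ℕ) => fw r.2 x = y := by
    intro x y
    apply measurableSet_setOfPred.1
    exact measurableSet_eq_fun
      ((measurable_from_top (f := fun m : ℕ => (Nat.unpair m).1)).comp
        ((measurable_pi_apply x).comp measurable_snd)) measurable_const
  have h2 : ∀ x y, Measurable fun r : (EC L × EC L) × (ℕ → ℕ) => bw r.2 x = y := by
    intro x y
    apply measurableSet_setOfPred.1
    exact measurableSet_eq_fun
      ((measurable_from_top (f := fun m : ℕ => (Nat.unpair m).2)).comp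
        ((measurable_pi_apply x).comp measurable_snd)) measurable_const
  apply measurableSet_setOfPred.2
  match i with
  | .inl (x, y) => exact (h1 x y).imp (h2 y x)
  | .inr (.inl (x, y)) => exact (h2 x y).imp (h1 y x)
  | .inr (.inr (.inl (x, y))) =>
    refine (h1 x y).imp ?_
    apply measurableSet_setOfPred.1
    exact measurableSet_eq_fun
      ((measurable_pi_apply x).comp (measurable_snd.comp (measurable_fst.comp measurable_fst)))
      ((measurable_pi_apply y).comp (measurable_snd.comp (measurable_snd.comp measurable_fst)))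
  | .inr (.inr (.inr ⟨n, R, t, s⟩)) =>
    refine (Measurable.forall fun k => h1 _ _).imp ?_
    apply measurableSet_setOfPred.1
    exact measurableSet_eq_fun
      ((measurable_pi_apply _).comp (measurable_fst.comp (measurable_fst.comp measurable_fst)))
      ((measurable_pi_apply _).comp (measurable_fst.comp (measurable_snd.comp measurable_fst)))

omit [∀ n, Countable (L.Relations n)] in
/-- Solutions of the conditions are isomorphisms. -/
theorem cond_iso {q : EC L × EC L} {p : ℕ → ℕ} (h : ∀ i, Cond i q p) :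
    (∀ x, bw p (fw p x) = x) ∧ (∀ x, fw p (bw p x) = x) ∧
    (∀ n (R : L.Relations n) (t : Fin n → ℕ),
      q.1.1 ⟨n, R, t⟩ = q.2.1 ⟨n, R, fun k => fw p (t k)⟩) ∧ ∀ x, q.1.2 x = q.2.2 (fw p x) :=
  ⟨fun x => h (.inl (x, fw p x)) rfl, fun x => h (.inr (.inl (x, bw p x))) rfl,
    fun n R t => h (.inr (.inr (.inr ⟨n, R, t, fun k => fw p (t k)⟩))) fun _ => rfl,
    fun x => h (.inr (.inr (.inl (x, fw p x)))) rfl⟩

omit [∀ n, Countable (L.Relations n)] in
theorem eiso_iff (q : EC L × EC L) : EIso q.1 q.2 ↔ ∃ p, ∀ i, Cond i q p := by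
  constructor
  · rintro ⟨g, h1, h2⟩
    refine ⟨fun x => Nat.pair (g x) (g.symm x), fun i => ?_⟩
    have e1 : ∀ x, fw (fun x => Nat.pair (g x) (g.symm x)) x = g x := by
      intro x; simp [fw]
    have e2 : ∀ x, bw (fun x => Nat.pair (g x) (g.symm x)) x = g.symm x := by
      intro x; simp [bw]
    match i with
    | .inl (x, y) =>
      intro h
      rw [e1] at h
      rw [e2, ← h]; simp
    | .inr (.inl (x, y)) =>
      intro h
      rw [e2] at h
      rw [e1, ← h]; simp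
    | .inr (.inr (.inl (x, y))) =>
      intro h
      rw [e1] at h
      rw [← h]; exact h2 x
    | .inr (.inr (.inr ⟨n, R, t, s⟩)) =>
      intro h
      simp only [e1] at h
      have : s = fun k => g (t k) := funext fun k => (h k).symm
      rw [this]; exact h1 n R t
  · rintro ⟨p, hp⟩
    obtain ⟨h1, h2, h3, h4⟩ := cond_iso hp
    exact ⟨⟨fw p, bw p, h1, h2⟩, h3, h4⟩

omit [∀ n, Countable (L.Relations n)] in
/-- The solutions are bounded. -/
theorem cond_fin {q : EC L × EC L} (h1 : FO (toI q.1.1)) (h2 : Enm (toI q.1.1) q.1.2)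
    (n : ℕ) : {m | ∃ p, (∀ i, Cond i q p) ∧ p n = m}.Finite := by
  by_cases hne : ∃ p, ∀ i, Cond i q p
  swap
  · convert Set.finite_empty
    ext m
    simp only [Set.mem_ofPred_eq, Set.mem_empty_iff_false, iff_false]
    rintro ⟨p, hp, -⟩
    exact hne ⟨p, hp⟩
  obtain ⟨p0, hp0⟩ := hne
  obtain ⟨a1, a2, a3, a4⟩ := cond_iso hp0
  let g0 : ℕ ≃ ℕ := ⟨fw p0, bw p0, a1, a2⟩
  have hsub : {m | ∃ p, (∀ i, Cond i q p) ∧ p n = m} ⊆
      (fun r : ℕ × ℕ => Nat.pair (g0 r.1) r.2) '' (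
        {y | ∃ g : ℕ ≃ ℕ, IsAut (toI q.1.1) g ∧ (∀ z, q.1.2 (g z) = q.1.2 z) ∧ g n = y} ×ˢ
        {y | ∃ g : ℕ ≃ ℕ, IsAut (toI q.1.1) g ∧ (∀ z, q.1.2 (g z) = q.1.2 z) ∧
          g (g0.symm n) = y}) := by
    rintro m ⟨p, hp, rfl⟩
    obtain ⟨b1, b2, b3, b4⟩ := cond_iso hp
    let g : ℕ ≃ ℕ := ⟨fw p, bw p, b1, b2⟩
    have hgen : ∀ k k' : ℕ ≃ ℕ, (∀ n (R : L.Relations n) (t : Fin n → ℕ),
        q.1.1 ⟨n, R, t⟩ = q.2.1 ⟨n, R, fun j => k (t j)⟩) → (∀ x, q.1.2 x = q.2.2 (k x)) →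
        (∀ n (R : L.Relations n) (t : Fin n → ℕ),
        q.1.1 ⟨n, R, t⟩ = q.2.1 ⟨n, R, fun j => k' (t j)⟩) → (∀ x, q.1.2 x = q.2.2 (k' x)) →
        IsAut (toI q.1.1) (k.trans k'.symm) ∧ ∀ z, q.1.2 ((k.trans k'.symm) z) = q.1.2 z := by
      intro k k' c1 c2 c3 c4
      constructor
      · intro n R v
        show q.1.1 ⟨n, R, v⟩ = true ↔ q.1.1 ⟨n, R, fun j => k'.symm (k (v j))⟩ = true
        rw [c1 n R v, c3 n R fun j => k'.symm (k (v j))]
        simp
      · intro z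
        rw [c4, Equiv.trans_apply, Equiv.apply_symm_apply, ← c2]
    obtain ⟨d1, d2⟩ := hgen g g0 b3 b4 a3 a4
    obtain ⟨d3, d4⟩ := hgen g0 g a3 a4 b3 b4
    refine ⟨((g.trans g0.symm) n, (g0.trans g.symm) (g0.symm n)),
      ⟨⟨_, d1, d2, rfl⟩, ⟨_, d3, d4, rfl⟩⟩, ?_⟩
    simp only [Equiv.trans_apply, Equiv.apply_symm_apply]
    show Nat.pair (fw p n) (bw p n) = p n
    unfold fw bw
    exact Nat.pair_unpair _
  exact Set.Finite.subset (((orb_fin h1 h2 n).prod (orb_fin h1 h2 (g0.symm n))).image _) hsub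

/-- Isomorphism of the enumerated structures is measurable on a measurable set which contains all
enumerated structures in the class. -/
theorem meas_eiso (K : Set (Code L)) (hK : AnalyticSet K) (hF : ∀ c ∈ K, FO (toI c)) :
    AnalyticSet (EK K) ∧ ∃ B : Set (EC L), EK K ⊆ B ∧ MeasurableSet B ∧
      MeasurableSet {q : EC L × EC L | q.1 ∈ B ∧ q.2 ∈ B ∧ EIso q.1 q.2} := by
  classical
  have hKE : EK K = (Prod.fst ⁻¹' K) ∩ EK (univ : Set (Code L)) := by
    ext q
    constructor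
    · rintro ⟨h1, h2⟩
      exact ⟨h1, trivial, h2⟩
    · rintro ⟨h1, -, h2⟩
      exact ⟨h1, h2⟩
  have hA : AnalyticSet (EK K) := by
    rw [hKE, Set.inter_eq_iInter]
    refine AnalyticSet.iInter fun b => ?_
    cases b
    · exact (meas_EK MeasurableSet.univ).analyticSet
    · exact hK.preimage continuous_fst
  refine ⟨hA, ?_⟩
  have hP : PolishSpace (EC L × EC L) := by
    have h1 : SecondCountableTopology (EC L × EC L) := inferInstance
    have h2 : TopologicalSpace.IsCompletelyMetrizableSpace (EC L × EC L) := inferInstance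
    exact {}
  have hBo : BorelSpace (EC L × EC L) := by
    have b1 : BorelSpace (EC L) := inferInstance
    have b2 : SecondCountableTopology (EC L) := inferInstance
    exact Prod.borelSpace
  have hAA : AnalyticSet (EK K ×ˢ EK K) := by
    have : EK K ×ˢ EK K = (Prod.fst ⁻¹' EK K) ∩ (Prod.snd ⁻¹' EK K) := rfl
    rw [this, Set.inter_eq_iInter]
    refine AnalyticSet.iInter fun b => ?_
    cases b
    · exact hA.preimage continuous_snd
    · exact hA.preimage continuous_fst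
  have : Nonempty (Idx L) := ⟨.inl (0, 0)⟩
  obtain ⟨en, hen⟩ := exists_surjective_nat (Idx L)
  obtain ⟨B1, hB1, hB1m, hB1e⟩ := proj_compact (fun j (q : EC L × EC L) p => Cond (en j) q p)
    (fun j => meas_cond (en j)) (fun j q => clopen_cond (en j) q) hAA (by
      rintro q ⟨hq, -⟩ n
      refine (cond_fin (hF _ hq.1) hq.2 n).subset ?_
      rintro m ⟨p, h1, h2⟩
      refine ⟨p, fun i => ?_, h2⟩
      obtain ⟨j, rfl⟩ := hen i
      exact h1 j)
  have heq : {q : EC L × EC L | ∃ p, ∀ j, Cond (en j) q p} = {q | EIso q.1 q.2} := by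
    ext q
    rw [Set.mem_ofPred_eq, Set.mem_ofPred_eq, eiso_iff]
    constructor
    · rintro ⟨p, hp⟩
      refine ⟨p, fun i => ?_⟩
      obtain ⟨j, rfl⟩ := hen i
      exact hp j
    · rintro ⟨p, hp⟩
      exact ⟨p, fun j => hp (en j)⟩
  rw [heq] at hB1e
  -- a square inside
  have hN1 : AnalyticSet (Prod.fst '' ((B1ᶜ) ∩ (Prod.snd ⁻¹' EK K)) : Set (EC L)) := by
    refine AnalyticSet.image_of_continuous ?_ continuous_fst
    rw [Set.inter_eq_iInter]
    refine AnalyticSet.iInter fun b => ?_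
    cases b
    · exact hA.preimage continuous_snd
    · exact hB1m.compl.analyticSet
  obtain ⟨C1, hC1, hC1d, hC1m⟩ := hA.measurablySeparable hN1 (by
    rw [Set.disjoint_left]
    rintro q hq ⟨⟨q1, q2⟩, ⟨h1, h2⟩, rfl⟩
    exact h1 (hB1 ⟨hq, h2⟩))
  have hN2 : AnalyticSet (Prod.snd '' ((B1ᶜ) ∩ (Prod.fst ⁻¹' C1)) : Set (EC L)) := by
    refine AnalyticSet.image_of_continuous ?_ continuous_snd
    exact (hB1m.compl.inter (measurable_fst hC1m)).analyticSet
  obtain ⟨C2, hC2, hC2d, hC2m⟩ := hA.measurablySeparable hN2 (by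
    rw [Set.disjoint_left]
    rintro q hq ⟨⟨q1, q2⟩, ⟨h1, h2⟩, rfl⟩
    exact Set.disjoint_left.1 hC1d ⟨(q1, q2), ⟨h1, hq⟩, rfl⟩ h2)
  refine ⟨C1 ∩ C2, fun q hq => ⟨hC1 hq, hC2 hq⟩, hC1m.inter hC2m, ?_⟩
  have hfin : {q : EC L × EC L | q.1 ∈ C1 ∩ C2 ∧ q.2 ∈ C1 ∩ C2 ∧ EIso q.1 q.2} =
      ((Prod.fst ⁻¹' (C1 ∩ C2)) ∩ (Prod.snd ⁻¹' (C1 ∩ C2))) ∩ (B1 ∩ {q | EIso q.1 q.2}) := by
    ext q
    constructor
    · rintro ⟨h1, h2, h3⟩
      refine ⟨⟨h1, h2⟩, ?_, h3⟩
      by_contra h4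
      exact Set.disjoint_left.1 hC2d ⟨q, ⟨h4, h1.1⟩, rfl⟩ h2.2
    · rintro ⟨⟨h1, h2⟩, -, h3⟩
      exact ⟨h1, h2, h3⟩
  rw [hfin]
  exact ((measurable_fst (hC1m.inter hC2m)).inter (measurable_snd (hC1m.inter hC2m))).inter hB1e

/-- **The dichotomy** for analytic classes of structures all of whose orbits meet only finitely many
classes of interchangeable points. -/
theorem fo_dich (K : Set (Code L)) (hK : AnalyticSet K) (hF : ∀ c ∈ K, FO (toI c)) :
    (∃ g : ℕ → Code L, ∀ c ∈ K, ∃ n, Iso c (g n)) ∨ PerfK K := by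
  classical
  obtain ⟨hA, B, hKB, hB, hBm⟩ := meas_eiso K hK hF
  let E : EC L → EC L → Prop := fun q q' => q = q' ∨ (q ∈ B ∧ q' ∈ B ∧ EIso q q')
  have hEq : Equivalence E := by
    refine ⟨fun q => Or.inl rfl, ?_, ?_⟩
    · rintro q q' (rfl | ⟨h1, h2, h3⟩)
      · exact Or.inl rfl
      · exact Or.inr ⟨h2, h1, eiso_symm h3⟩
    · rintro q q' q'' (rfl | ⟨h1, h2, h3⟩) (rfl | ⟨h1', h2', h3'⟩)
      · exact Or.inl rfl
      · exact Or.inr ⟨h1', h2', h3'⟩
      · exact Or.inr ⟨h1, h2, h3⟩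
      · exact Or.inr ⟨h1, h2', eiso_trans h3 h3'⟩
  have hm : MeasurableSet {q : EC L × EC L | E q.1 q.2} := by
    have : {q : EC L × EC L | E q.1 q.2} = {q | q.1 = q.2} ∪
        {q : EC L × EC L | q.1 ∈ B ∧ q.2 ∈ B ∧ EIso q.1 q.2} := by
      ext q; rfl
    rw [this]
    exact (measurableSet_eq_fun measurable_fst measurable_snd).union hBm
  rcases Pool.Agent.H579R3.SV.silver hEq hm hA with ⟨S, hS1, hS2, hS3⟩ | ⟨h, h1, h2, h3⟩
  · left
    by_cases hne : K.Nonempty
    swap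
    · rw [Set.not_nonempty_iff_eq_empty] at hne
      exact ⟨fun _ _ => false, fun c hc => by rw [hne] at hc; exact hc.elim⟩
    have hSne : S.Nonempty := by
      obtain ⟨c, hc⟩ := hne
      obtain ⟨e, he⟩ := exists_enm (toI c)
      obtain ⟨y, hy, -⟩ := hS3 (c, e) ⟨hc, he⟩
      exact ⟨y, hy⟩
    obtain ⟨f, hf⟩ := hS2.exists_eq_range hSne
    refine ⟨fun n => (f n).1, fun c hc => ?_⟩
    obtain ⟨e, he⟩ := exists_enm (toI c)
    obtain ⟨y, hy, hEy⟩ := hS3 (c, e) ⟨hc, he⟩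
    rw [hf] at hy
    obtain ⟨n, rfl⟩ := hy
    refine ⟨n, ?_⟩
    show Iso c (f n).1
    rcases hEy with h | ⟨-, -, g, hg, -⟩
    · rw [← h]
      exact ⟨Equiv.refl ℕ, fun _ _ _ => rfl⟩
    · exact ⟨g, hg⟩
  · right
    refine ⟨fun x => (h x).1, continuous_fst.comp h1, fun x => (h2 x).1, fun x x' hI => ?_⟩
    by_contra hne
    apply h3 x x' hne
    obtain ⟨g, hg⟩ := hI
    replace hg : ∀ n (R : L.Relations n) (t : Fin n → ℕ),
        (h x).1 ⟨n, R, t⟩ = (h x').1 ⟨n, R, fun k => g (t k)⟩ := hg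
    have hg' : ∀ n (R : L.Relations n) (v : Fin n → ℕ),
        toI (h x).1 n R v ↔ toI (h x').1 n R fun k => g (v k) := by
      intro n R v
      unfold toI
      rw [hg]
    -- pull back the enumeration
    have he : Enm (toI (h x).1) fun y => (h x').2 (g y) := by
      constructor
      · intro y z hs hyz
        exact g.injective ((h2 x').2.1 _ _ ((sw_map g hg' y z).1 hs) hyz)
      · intro y n hn
        obtain ⟨z, hz, hz'⟩ := (h2 x').2.2 (g y) n hn
        refine ⟨g.symm z, (sw_map g hg' _ _).2 (by simpa using hz), by simpa using hz'⟩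
    obtain ⟨k, hk1, hk2⟩ := enm_unique (h2 x).2 he
    refine Or.inr ⟨hKB (h2 x), hKB (h2 x'), k.trans g, fun n R t => ?_, fun y => (hk2 y).symm⟩
    have e1 := hk1 n R t
    have e2 := hg n R fun j => k (t j)
    rw [Equiv.coe_trans]
    show (h x).1 ⟨n, R, t⟩ = (h x').1 ⟨n, R, fun j => g (k (t j))⟩
    rw [← e2, Bool.eq_iff_iff]
    exact e1

end

end Pool.Agent.H667.UF
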