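import Pool.Agent.H667.UF.Inv
import Pool.Agent.H667.UF.Dich

set_option autoImplicit false

/-!
Structures without freedom, and the dichotomy for the classes closed under equivalence.
-/

namespace Pool.Agent.H667.UF

open FirstOrder Set MeasureTheory
open Pool.Agent.H565R2.FO2 (Interp Code toI ofI toI_ofI Iso meas_toI)
open Pool.Agent.H565R2.LO2 (PerfK)
open Pool.Agent.H667.FI (IsAut Sw)

variable {L : FirstOrder.Language.{0, 0}}

/-- Points with the same type and the same profile are interchangeable. -/
theorem sw_of_pe {I : Interp L ℕ} (h1 : ¬ Nonempty (Fr1 I)) {y z : ℕ} (hy : InfT I y)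
    (hyz : ty I y = ty I z) (hp : PE I I y z) : Sw I y z := by
  classical
  have hz : InfT I z := (infT_congr hyz).1 hy
  intro n R v
  let X : Finset ℕ := Finset.univ.image v
  have hm : ∀ j, v j ∈ X := fun j => Finset.mem_image_of_mem _ (Finset.mem_univ j)
  by_cases hX : (fl I X).card ≤ 1
  · by_cases hyX : y ∈ X
    · have huniq : ∀ j, v j ≠ y → ¬ InfT I (v j) := by
        intro j hj hi
        exact hj (Finset.card_le_one.1 hX (v j) (mem_fl.2 ⟨hm j, hi⟩) y (mem_fl.2 ⟨hyX, hy⟩))
      let u : Fin n → Option ℕ := fun j => if v j = y then none else some (v j)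
      have hu : Fw I u := by
        intro j w hw
        by_cases e : v j = y
        · simp [u, e] at hw
        · simp only [u, if_neg e, Option.some.injEq] at hw
          subst hw
          exact huniq j e
      have e1 : v = fun j => (u j).getD y := by
        funext j
        by_cases e : v j = y
        · simp only [u, if_pos e, e, Option.getD_none]
        · simp only [u, if_neg e, Option.getD_some]
      have e2 : (fun j => Equiv.swap y z (v j)) = fun j => (u j).getD z := by
        funext j
        by_cases e : v j = y
        · simp only [u, if_pos e, e, Option.getD_none, Equiv.swap_apply_left]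
        · simp only [u, if_neg e, Option.getD_some]
          apply Equiv.swap_apply_of_ne_of_ne e
          rintro e'
          exact huniq j e (e' ▸ hz)
      rw [e2]
      conv_lhs => rw [e1]
      exact hp n R u hu
    · by_cases hzX : z ∈ X
      · have huniq : ∀ j, v j ≠ z → ¬ InfT I (v j) := by
          intro j hj hi
          exact hj (Finset.card_le_one.1 hX (v j) (mem_fl.2 ⟨hm j, hi⟩) z (mem_fl.2 ⟨hzX, hz⟩))
        let u : Fin n → Option ℕ := fun j => if v j = z then none else some (v j)
        have hu : Fw I u := by
          intro j w hw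
          by_cases e : v j = z
          · simp [u, e] at hw
          · simp only [u, if_neg e, Option.some.injEq] at hw
            subst hw
            exact huniq j e
        have e1 : v = fun j => (u j).getD z := by
          funext j
          by_cases e : v j = z
          · simp only [u, if_pos e, e, Option.getD_none]
          · simp only [u, if_neg e, Option.getD_some]
        have e2 : (fun j => Equiv.swap y z (v j)) = fun j => (u j).getD y := by
          funext j
          by_cases e : v j = z
          · simp only [u, if_pos e, e, Option.getD_none, Equiv.swap_apply_right]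
          · simp only [u, if_neg e, Option.getD_some]
            apply Equiv.swap_apply_of_ne_of_ne _ e
            rintro e'
            exact huniq j e (e' ▸ hy)
        rw [e2]
        conv_lhs => rw [e1]
        exact (hp n R u hu).symm
      · have : (fun j => Equiv.swap y z (v j)) = v := by
          funext j
          apply Equiv.swap_apply_of_ne_of_ne
          · rintro e; exact hyX (e ▸ hm j)
          · rintro e; exact hzX (e ▸ hm j)
        rw [this]
  · by_contra hcon
    apply h1
    obtain ⟨a1, ha1, a2, ha2, hne⟩ := Finset.one_lt_card.1 (not_le.1 hX)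
    exact ⟨{ A := X, a1 := a1, a2 := a2, h1 := (mem_fl.1 ha1).1, h2 := (mem_fl.1 ha2).1,
             hne := hne, i1 := (mem_fl.1 ha1).2, i2 := (mem_fl.1 ha2).2, h := Equiv.swap y z,
             hh := cp_swap hyz, k := n, R := R, v := v, hv := rfl,
             hR := fun h => hcon h.symm }⟩

/-- Without freedom, every orbit meets only finitely many classes of interchangeable points. -/
theorem tame {I : Interp L ℕ} (h1 : ¬ Nonempty (Fr1 I)) (h2 : ∀ c, ¬ Fr2 I c) : FO I := by
  classical
  intro x
  by_cases hx : InfT I x
  · have h3 := h2 x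
    unfold Fr2 at h3
    push Not at h3
    obtain ⟨T, hT⟩ := h3
    refine ⟨T.image fun z => if h : ∃ y, ty I y = ty I x ∧ PE I I y z then h.choose else z,
      fun g hg => ?_⟩
    have hgx : ty I (g x) = ty I x := (ty_map g hg x).symm
    obtain ⟨z, hz, hz'⟩ := hT (g x) hgx
    have h : ∃ y, ty I y = ty I x ∧ PE I I y z := ⟨g x, hgx, hz'⟩
    refine ⟨h.choose, Finset.mem_image.2 ⟨z, hz, by rw [dif_pos h]⟩, ?_⟩
    refine sw_of_pe h1 ((infT_congr hgx).2 hx) (hgx.trans h.choose_spec.1.symm) ?_
    exact pe_trans hz' (pe_symm h.choose_spec.2)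
  · have hfin : {y | ty I y = ty I x}.Finite := Set.not_infinite.1 hx
    refine ⟨hfin.toFinset, fun g hg => ⟨g x, ?_, Pool.Agent.H667.FI.sw_refl I _⟩⟩
    rw [Set.Finite.mem_toFinset]
    exact (ty_map g hg x).symm

/-- The dichotomy for the analytic classes closed under equivalence. -/
theorem main_closed [∀ n, Countable (L.Relations n)] (K : Set (Code L)) (hK : AnalyticSet K)
    (hcl : ∀ c ∈ K, ∀ c', (∀ b, ty (toI c') b = ty (toI c) b) → c' ∈ K) :
    (∃ g : ℕ → Code L, ∀ c ∈ K, ∃ n, Iso c (g n)) ∨ PerfK K := by
  by_cases h : ∃ c ∈ K, Nonempty (Fr1 (toI c))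
  · right
    obtain ⟨c, hc, ⟨C⟩⟩ := h
    obtain ⟨f, hf1, hf2, hf3⟩ := C.perf
    exact ⟨f, hf1, fun x => hcl c hc _ (hf2 x), hf3⟩
  by_cases h' : ∃ c ∈ K, ∃ a, Fr2 (toI c) a
  · right
    obtain ⟨c, hc, a, ha⟩ := h'
    obtain ⟨f, hf1, hf2, hf3⟩ := ha.perf
    exact ⟨f, hf1, fun x => hcl c hc _ (hf2 x), hf3⟩
  · push Not at h h'
    exact fo_dich K hK fun c hc => tame (not_nonempty_iff.2 (h c hc)) (h' c hc)

end Pool.Agent.H667.UF
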