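import Mathlib
import Pool.Graph.R_seed8.TH425.FF.Nov

set_option autoImplicit false

/-!
Projections of sets with compact sections, over analytic sets.
-/

namespace Pool.Agent.H667.UF

open Set MeasureTheory

/-- Let the conditions `Φ j` be closed and open in `p`, and let their common solutions be bounded
over the points of an analytic set `A`. Then the set of the points with a solution is measurable
on some measurable set which contains `A`. -/
theorem proj_compact {X : Type} [TopologicalSpace X] [PolishSpace X] [MeasurableSpace X]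
    [BorelSpace X] (Φ : ℕ → X → (ℕ → ℕ) → Prop)
    (hm : ∀ j, MeasurableSet {q : X × (ℕ → ℕ) | Φ j q.1 q.2})
    (hc : ∀ j x, IsClopen {p | Φ j x p}) {A : Set X} (hA : AnalyticSet A)
    (hf : ∀ x ∈ A, ∀ n, {m | ∃ p, (∀ j, Φ j x p) ∧ p n = m}.Finite) :
    ∃ B, A ⊆ B ∧ MeasurableSet B ∧ MeasurableSet (B ∩ {x | ∃ p, ∀ j, Φ j x p}) := by
  classical
  let O : ℕ → ℕ → Set X := fun n m => {x | ∃ p, (∀ j, Φ j x p) ∧ p n = m}
  have hO : ∀ n m, AnalyticSet (O n m) := by
    intro n m
    have h1 : MeasurableSet {q : X × (ℕ → ℕ) | (∀ j, Φ j q.1 q.2) ∧ q.2 n = m} := by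
      have h2 : MeasurableSet {q : X × (ℕ → ℕ) | q.2 n = m} :=
        measurableSet_eq_fun ((measurable_pi_apply n).comp measurable_snd) measurable_const
      have h3 : {q : X × (ℕ → ℕ) | (∀ j, Φ j q.1 q.2) ∧ q.2 n = m} =
          (⋂ j, {q : X × (ℕ → ℕ) | Φ j q.1 q.2}) ∩ {q | q.2 n = m} := by
        ext q; simp
      rw [h3]
      exact (MeasurableSet.iInter hm).inter h2
    have h4 : O n m = Prod.fst '' {q : X × (ℕ → ℕ) | (∀ j, Φ j q.1 q.2) ∧ q.2 n = m} := by
      ext x
      constructor
      · rintro ⟨p, h5, h6⟩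
        exact ⟨(x, p), ⟨h5, h6⟩, rfl⟩
      · rintro ⟨⟨x', p⟩, ⟨h5, h6⟩, rfl⟩
        exact ⟨p, h5, h6⟩
    rw [h4]
    exact h1.analyticSet.image_of_continuous continuous_fst
  let U : ℕ → ℕ → Set X := fun n k => ⋃ m : ℕ, O n (k + m)
  have hU : ∀ n k, AnalyticSet (U n k) := fun n k => AnalyticSet.iUnion fun m => hO n (k + m)
  have hT : ∀ n k, AnalyticSet (A ∩ U n k) := by
    intro n k
    rw [Set.inter_eq_iInter]
    refine AnalyticSet.iInter fun b => ?_
    cases b
    · exact hU n k
    · exact hA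
  have hT0 : ∀ n, ⋂ k, (A ∩ U n k) = ∅ := by
    intro n
    rw [Set.eq_empty_iff_forall_notMem]
    intro x hx
    rw [Set.mem_iInter] at hx
    obtain ⟨K, hK⟩ := (hf x (hx 0).1 n).bddAbove
    obtain ⟨m, hm'⟩ := Set.mem_iUnion.1 (hx (K + 1)).2
    have := hK (show K + 1 + m ∈ {m | ∃ p, (∀ j, Φ j x p) ∧ p n = m} from hm')
    omega
  choose Bn hB1 hB2 hB3 using fun n => Pool.Agent.TH425.FF.novikov (fun k => A ∩ U n k) (hT n)
    (hT0 n)
  have hsep : ∀ n k, ∃ D : Set X, A ∩ (Bn n k)ᶜ ⊆ D ∧ Disjoint (U n k) D ∧ MeasurableSet D := by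
    intro n k
    have h1 : AnalyticSet (A ∩ (Bn n k)ᶜ) := by
      rw [Set.inter_eq_iInter]
      refine AnalyticSet.iInter fun b => ?_
      cases b
      · exact (hB1 n k).compl.analyticSet
      · exact hA
    refine h1.measurablySeparable (hU n k) ?_
    rw [Set.disjoint_left]
    rintro x ⟨h2, h3⟩ h4
    exact h3 (hB2 n k ⟨h2, h4⟩)
  choose D hD1 hD2 hD3 using hsep
  let B : Set X := ⋂ n, ⋃ k, D n k
  have hBm : MeasurableSet B := MeasurableSet.iInter fun n => MeasurableSet.iUnion fun k => hD3 n k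
  refine ⟨B, ?_, hBm, ?_⟩
  · intro x hx
    rw [Set.mem_iInter]
    intro n
    have h1 : x ∉ ⋂ k, Bn n k := by rw [hB3 n]; exact Set.notMem_empty x
    rw [Set.mem_iInter] at h1
    push Not at h1
    obtain ⟨k, hk⟩ := h1
    exact Set.mem_iUnion.2 ⟨k, hD1 n k ⟨hx, hk⟩⟩
  · -- the finite approximations
    let Q : Set (ℕ → ℕ) := Set.range fun l : List ℕ => fun n => l.getD n 0
    have hQ : Q.Countable := Set.countable_range _
    let G : ℕ → (ℕ → ℕ) → Set X := fun J p =>
      {x | ∀ n, ∀ k < p n, x ∉ D n k} ∩ {x | ∀ j < J, Φ j x p}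
    have hG : ∀ J p, MeasurableSet (G J p) := by
      intro J p
      refine MeasurableSet.inter ?_ ?_
      · have : {x | ∀ n, ∀ k < p n, x ∉ D n k} = ⋂ n, ⋂ k, ⋂ (_ : k < p n), (D n k)ᶜ := by
          ext x; simp
        rw [this]
        exact MeasurableSet.iInter fun n => MeasurableSet.iInter fun k =>
          MeasurableSet.iInter fun _ => (hD3 n k).compl
      · have : {x | ∀ j < J, Φ j x p} = ⋂ j, ⋂ (_ : j < J), {x | Φ j x p} := by
          ext x; simp
        rw [this]
        refine MeasurableSet.iInter fun j => MeasurableSet.iInter fun _ => ?_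
        exact measurable_prodMk_right (hm j)
    have hmain : B ∩ {x | ∃ p, ∀ j, Φ j x p} = B ∩ ⋂ J, ⋃ p ∈ Q, G J p := by
      ext x
      constructor
      · rintro ⟨hxB, p, hp⟩
        refine ⟨hxB, Set.mem_iInter.2 fun J => ?_⟩
        have hpb : ∀ n, ∀ k ≤ p n, x ∉ D n k := by
          intro n k hk hxD
          refine Set.disjoint_left.1 (hD2 n k) (Set.mem_iUnion.2 ⟨p n - k, p, hp, ?_⟩) hxD
          omega
        have hopen : IsOpen {p | ∀ j < J, Φ j x p} := by
          have : {p | ∀ j < J, Φ j x p} = ⋂ j ∈ Finset.range J, {p | Φ j x p} := by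
            ext p; simp
          rw [this]
          exact isOpen_biInter_finset fun j _ => (hc j x).isOpen
        obtain ⟨u, ⟨I, t⟩, hu⟩ : ∃ u : Set (ℕ → ℕ), (∃ I : Finset ℕ, ∃ t : ℕ → Set ℕ,
            u = (I : Set ℕ).pi t ∧ p ∈ u) ∧ u ⊆ {p | ∀ j < J, Φ j x p} := by
          obtain ⟨I, t, ht, hsub⟩ := isOpen_pi_iff.1 hopen p fun j _ => hp j
          exact ⟨_, ⟨I, t, rfl, fun n hn => (ht n hn).2⟩, hsub⟩
        obtain ⟨t', rfl, hpt⟩ := t
        let l : List ℕ := (List.range (I.sup id + 1)).map p
        have hl : ∀ n ≤ I.sup id, l.getD n 0 = p n := by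
          intro n hn
          simp [l, List.getD, List.getElem?_range (show n < I.sup id + 1 by omega)]
        have hl' : ∀ n, l.getD n 0 ≤ p n := by
          intro n
          by_cases h : n ≤ I.sup id
          · exact (hl n h).le
          · have : l.length ≤ n := by simp [l]; omega
            rw [List.getD_eq_default _ _ this]
            exact Nat.zero_le _
        refine Set.mem_iUnion₂.2 ⟨fun n => l.getD n 0, ⟨l, rfl⟩, ?_, ?_⟩
        · intro n k hk
          have hk' : k < l.getD n 0 := hk
          exact hpb n k (by have := hl' n; omega)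
        · refine hu fun n hn => ?_
          have : l.getD n 0 = p n := hl n (Finset.le_sup (f := id) hn)
          show l.getD n 0 ∈ t' n
          rw [this]
          exact hpt n hn
      · rintro ⟨hxB, hx⟩
        refine ⟨hxB, ?_⟩
        rw [Set.mem_iInter] at hx
        have hb : ∀ n, ∃ k, x ∈ D n k := fun n => Set.mem_iUnion.1 (Set.mem_iInter.1 hxB n)
        choose κ hκ using hb
        let K : Set (ℕ → ℕ) := {p | ∀ n, ∀ k < p n, x ∉ D n k}
        have hKsub : K ⊆ Set.pi Set.univ fun n => Set.Iic (κ n) := by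
          intro p hp n _
          by_contra hlt
          have hlt' : ¬ p n ≤ κ n := hlt
          exact hp n (κ n) (by omega) (hκ n)
        have hKc : IsClosed K := by
          have : K = ⋂ n, {p : ℕ → ℕ | ∀ k < p n, x ∉ D n k} := by
            ext p; simp [K]
          rw [this]
          refine isClosed_iInter fun n => ?_
          exact IsClosed.preimage (f := fun p : ℕ → ℕ => p n) (continuous_apply n)
            (isClosed_discrete {m : ℕ | ∀ k < m, x ∉ D n k})
        have hcomp : IsCompact K := by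
          refine IsCompact.of_isClosed_subset ?_ hKc hKsub
          exact isCompact_univ_pi fun n => (Set.finite_Iic (κ n)).isCompact
        let F : ℕ → Set (ℕ → ℕ) := fun J => K ∩ {p | ∀ j < J, Φ j x p}
        have hFc : ∀ J, IsClosed (F J) := by
          intro J
          refine hKc.inter ?_
          have : {p | ∀ j < J, Φ j x p} = ⋂ j, ⋂ (_ : j < J), {p | Φ j x p} := by
            ext p; simp
          rw [this]
          exact isClosed_iInter fun j => isClosed_iInter fun _ => (hc j x).isClosed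
        have hne : (⋂ J, F J).Nonempty := by
          refine IsCompact.nonempty_iInter_of_sequence_nonempty_isCompact_isClosed F ?_ ?_ ?_ hFc
          · intro J p hp
            exact ⟨hp.1, fun j hj => hp.2 j (by omega)⟩
          · intro J
            obtain ⟨p, -, hp⟩ := Set.mem_iUnion₂.1 (hx J)
            exact ⟨p, hp.1, hp.2⟩
          · exact hcomp.of_isClosed_subset (hFc 0) Set.inter_subset_left
        obtain ⟨p, hp⟩ := hne
        rw [Set.mem_iInter] at hp
        exact ⟨p, fun j => (hp (j + 1)).2 j (by omega)⟩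
    rw [hmain]
    exact hBm.inter (MeasurableSet.iInter fun J => MeasurableSet.biUnion hQ fun p _ => hG J p)

end Pool.Agent.H667.UF
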