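import Pool.Agent.H667.UF.Prof

set_option autoImplicit false

/-!
The generic construction: some finite set with two points in infinite types can carry two different
structures.
-/

namespace Pool.Agent.H667.UF

open FirstOrder Set
open Pool.Agent.H565R2.FO2 (Interp Code toI ofI toI_ofI Iso)

variable {L : FirstOrder.Language.{0, 0}}

/-- Labels. -/
abbrev Lab : Type := (List (ℕ × ℕ) × ℕ) ⊕ ℕ

theorem exists_lab (I : Interp L ℕ) : ∃ lab : ℕ → Lab, ∀ c, InfT I c → ∀ (ℓ : Lab) (m : ℕ),
    ∃ β, m < β ∧ ty I β = ty I c ∧ lab β = ℓ := by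
  classical
  obtain ⟨dec, hdec⟩ := exists_surjective_nat Lab
  let p : ℕ → ℕ → Prop := fun x y => ty I y = ty I x
  refine ⟨fun x => dec (Nat.unpair (Nat.count (p x) x)).1, fun c hc ℓ m => ?_⟩
  obtain ⟨n, hn⟩ := hdec ℓ
  have hinf : {y | p c y}.Infinite := hc
  let β := Nat.nth (p c) (Nat.pair n (m + 1))
  have h1 : p c β := Nat.nth_mem_of_infinite hinf _
  have h2 : Nat.pair n (m + 1) ≤ β := Nat.le_nth fun h => absurd h hinf
  have h3 : p β = p c := by
    funext y
    show (ty I y = ty I β) = (ty I y = ty I c)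
    rw [h1]
  refine ⟨β, ?_, h1, ?_⟩
  · have := Nat.right_le_pair n (m + 1)
    omega
  · have h4 : Nat.count (p c) β = Nat.pair n (m + 1) := Nat.count_nth_of_infinite hinf _
    have h5 : Nat.count (p β) β = Nat.pair n (m + 1) := by
      rw [← h4]
      congr 1
    simp only [h5, Nat.unpair_pair, hn]

/-- The labels. -/
noncomputable def lab (I : Interp L ℕ) : ℕ → Lab := (exists_lab I).choose

theorem lab_spec (I : Interp L ℕ) {c : ℕ} (hc : InfT I c) (ℓ : Lab) (F : Finset ℕ) :
    ∃ β, (∀ y ∈ F, y < β) ∧ ty I β = ty I c ∧ lab I β = ℓ := by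
  obtain ⟨β, h1, h2, h3⟩ := (exists_lab I).choose_spec c hc ℓ (F.sup id)
  exact ⟨β, fun y hy => lt_of_le_of_lt (Finset.le_sup (f := id) hy) h1, h2, h3⟩

open Classical in
/-- The permutation given by a list. -/
noncomputable def lp (I : Interp L ℕ) (l : List (ℕ × ℕ)) : ℕ ≃ ℕ :=
  if h : ∃ g, CP I g ∧ ∀ p ∈ l, g p.1 = p.2 then h.choose else Equiv.refl ℕ

theorem lp_cp (I : Interp L ℕ) (l : List (ℕ × ℕ)) : CP I (lp I l) := by
  unfold lp
  split_ifs with h
  · exact h.choose_spec.1
  · exact cp_one I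

theorem lp_spec {I : Interp L ℕ} {l : List (ℕ × ℕ)} (h : ∃ g, CP I g ∧ ∀ p ∈ l, g p.1 = p.2) :
    ∀ p ∈ l, lp I l p.1 = p.2 := by
  unfold lp
  rw [dif_pos h]
  exact h.choose_spec.2

/-- The last point in an infinite type. -/
noncomputable def mx (I : Interp L ℕ) (X : Finset ℕ) : ℕ := (fl I X).sup id

theorem mx_insert {I : Interp L ℕ} {Y : Finset ℕ} {β : ℕ} (hβ : InfT I β)
    (h : ∀ y ∈ Y, y < β) : mx I (insert β Y) = β := by
  unfold mx
  apply le_antisymm
  · refine Finset.sup_le fun y hy => ?_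
    rcases Finset.mem_insert.1 (mem_fl.1 hy).1 with rfl | h'
    · exact le_rfl
    · exact (h y h').le
  · exact Finset.le_sup (f := id) (mem_fl.2 ⟨Finset.mem_insert_self _ _, hβ⟩)

theorem mx_inf {I : Interp L ℕ} {X : Finset ℕ} (h : ¬ (fl I X).card ≤ 1) :
    mx I X ∈ X ∧ InfT I (mx I X) := by
  have hne : (fl I X).Nonempty := by
    rw [← Finset.card_pos]; omega
  obtain ⟨y, hy, hy'⟩ := Finset.exists_mem_eq_sup (fl I X) hne id
  have : mx I X = y := hy'
  rw [this]
  exact mem_fl.1 hy

theorem exists_code : ∃ g : Finset ℕ → ℕ, Function.Injective g := exists_injective_nat _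

noncomputable def code : Finset ℕ → ℕ := exists_code.choose

theorem code_inj : Function.Injective code := exists_code.choose_spec

/-- Freedom. -/
structure Fr1 (I : Interp L ℕ) where
  A : Finset ℕ
  a1 : ℕ
  a2 : ℕ
  h1 : a1 ∈ A
  h2 : a2 ∈ A
  hne : a1 ≠ a2
  i1 : InfT I a1
  i2 : InfT I a2
  h : ℕ ≃ ℕ
  hh : CP I h
  k : ℕ
  R : L.Relations k
  v : Fin k → ℕ
  hv : Finset.univ.image v = A
  hR : ¬ (I k R (fun j => h (v j)) ↔ I k R v)

namespace Fr1

variable {I : Interp L ℕ} (C : Fr1 I)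

/-- The set without its last point. -/
def D : Finset ℕ := C.A.erase C.a2

/-- The set without the last two points. -/
def P : Finset ℕ := C.D.erase C.a1

open Classical in
/-- The order of a set. -/
noncomputable def ord (Y : Finset ℕ) : ℕ ≃ ℕ :=
  if h : ∃ f, CP I f ∧ C.D.image f = Y then h.choose else Equiv.refl ℕ

theorem ord_cp (Y : Finset ℕ) : CP I (C.ord Y) := by
  unfold ord
  split_ifs with h
  · exact h.choose_spec.1
  · exact cp_one I

theorem ord_spec {Y : Finset ℕ} (h : ∃ f, CP I f ∧ C.D.image f = Y) : C.D.image (C.ord Y) = Y := by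
  unfold ord
  rw [dif_pos h]
  exact h.choose_spec.2

open Classical in
/-- The permutation attached to a set. -/
noncomputable def w0 (X : Finset ℕ) : ℕ ≃ ℕ :=
  if (fl I X).card ≤ 1 then Equiv.refl ℕ else
    match lab I (mx I X) with
    | .inl (l, q) => if ty I q = ty I (mx I X) ∧ q ∉ X then
        (Equiv.swap (mx I X) q).trans (lp I l) else Equiv.refl ℕ
    | .inr n => if ty I (mx I X) = ty I C.a2 then
        (if code (X.erase (mx I X)) = n then
          ((C.ord (X.erase (mx I X))).trans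
            (Equiv.swap (C.ord (X.erase (mx I X)) C.a2) (mx I X))).symm
        else ((C.ord (X.erase (mx I X))).trans
            (Equiv.swap (C.ord (X.erase (mx I X)) C.a2) (mx I X))).symm.trans C.h)
        else Equiv.refl ℕ

theorem w0_cp (X : Finset ℕ) : CP I (C.w0 X) := by
  unfold w0
  by_cases h : (fl I X).card ≤ 1
  · rw [if_pos h]; exact cp_one I
  · rw [if_neg h]
    rcases lab I (mx I X) with ⟨l, q⟩ | n
    · simp only
      split_ifs with h'
      · exact cp_trans (cp_swap h'.1.symm) (lp_cp I l)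
      · exact cp_one I
    · simp only
      by_cases h1 : ty I (mx I X) = ty I C.a2
      · have h3 : CP I ((C.ord (X.erase (mx I X))).trans
            (Equiv.swap (C.ord (X.erase (mx I X)) C.a2) (mx I X))) :=
          cp_trans (C.ord_cp _) (cp_swap ((C.ord_cp _ _).trans h1.symm))
        rw [if_pos h1]
        split_ifs
        · exact cp_symm h3
        · exact cp_trans (cp_symm h3) C.hh
      · rw [if_neg h1]; exact cp_one I

theorem w0_le {X : Finset ℕ} (h : (fl I X).card ≤ 1) : C.w0 X = Equiv.refl ℕ := by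
  unfold w0
  rw [if_pos h]

/-- The basic structure. -/
noncomputable def N0 : Interp L ℕ := fun k R v => I k R fun j => C.w0 (Finset.univ.image v) (v j)

theorem exists_e : ∃ e : (Σ n : ℕ, Fin (n + 2)) → ℕ, Function.Injective e ∧
    ∀ p, ty I (e p) = ty I C.a1 ∧ e p ∉ C.A := by
  have hinf : ({y | ty I y = ty I C.a1} \ (C.A : Set ℕ)).Infinite :=
    C.i1.sdiff C.A.finite_toSet
  obtain ⟨g, hg⟩ := exists_injective_nat (Σ n : ℕ, Fin (n + 2))
  refine ⟨fun p => (hinf.natEmbedding _ (g p)).1, fun p q h => ?_, fun p => ?_⟩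
  · exact hg ((hinf.natEmbedding _).injective (Subtype.ext h))
  · have := (hinf.natEmbedding _ (g p)).2
    exact ⟨this.1, fun h => this.2 h⟩

/-- The special points. -/
noncomputable def e : (Σ n : ℕ, Fin (n + 2)) → ℕ := C.exists_e.choose

theorem e_inj : Function.Injective C.e := C.exists_e.choose_spec.1
theorem e_ty (p : Σ n : ℕ, Fin (n + 2)) : ty I (C.e p) = ty I C.a1 := (C.exists_e.choose_spec.2 p).1
theorem e_not (p : Σ n : ℕ, Fin (n + 2)) : C.e p ∉ C.A := (C.exists_e.choose_spec.2 p).2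

theorem P_sub {x : ℕ} (h : x ∈ C.P) : x ∈ C.A :=
  Finset.mem_of_mem_erase (Finset.mem_of_mem_erase h)

theorem e_notP (p : Σ n : ℕ, Fin (n + 2)) : C.e p ∉ C.P := fun h => C.e_not p (C.P_sub h)

open Classical in
/-- The merging permutation. -/
noncomputable def rh (S : ℕ → Bool) (Y : Finset ℕ) : ℕ ≃ ℕ :=
  if h : ∃ p : Σ n : ℕ, Fin (n + 2), S p.1 = true ∧ Y = insert (C.e p) C.P then
    Equiv.swap (C.e h.choose) (C.e ⟨h.choose.1, 0⟩) else Equiv.refl ℕ

theorem ins_inj {p q : Σ n : ℕ, Fin (n + 2)} (h : insert (C.e p) C.P = insert (C.e q) C.P) :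
    p = q := by
  apply C.e_inj
  have h1 : C.e p ∈ insert (C.e q) C.P := h ▸ Finset.mem_insert_self _ _
  rcases Finset.mem_insert.1 h1 with h2 | h2
  · exact h2
  · exact absurd h2 (C.e_notP p)

theorem rh_sp (S : ℕ → Bool) (p : Σ n : ℕ, Fin (n + 2)) (hp : S p.1 = true) :
    C.rh S (insert (C.e p) C.P) = Equiv.swap (C.e p) (C.e ⟨p.1, 0⟩) := by
  unfold rh
  have h : ∃ q : Σ n : ℕ, Fin (n + 2), S q.1 = true ∧
      insert (C.e p) C.P = insert (C.e q) C.P := ⟨p, hp, rfl⟩
  rw [dif_pos h]
  have h1 := C.ins_inj h.choose_spec.2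
  exact congrArg (fun q : Σ n : ℕ, Fin (n + 2) => Equiv.swap (C.e q) (C.e ⟨q.1, 0⟩)) h1.symm

theorem rh_ns (S : ℕ → Bool) {Y : Finset ℕ}
    (h : ¬ ∃ p : Σ n : ℕ, Fin (n + 2), S p.1 = true ∧ Y = insert (C.e p) C.P) :
    C.rh S Y = Equiv.refl ℕ := by
  unfold rh
  rw [dif_neg h]

theorem rh_cp (S : ℕ → Bool) (Y : Finset ℕ) : CP I (C.rh S Y) := by
  unfold rh
  split_ifs with h
  · exact cp_swap ((C.e_ty _).trans (C.e_ty _).symm)
  · exact cp_one I

/-- Points outside the set and its image are fixed. -/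
theorem rh_fix (S : ℕ → Bool) {Y : Finset ℕ} {β : ℕ} (h1 : β ∉ Y) (h2 : β ∉ Y.image (C.rh S Y)) :
    C.rh S Y β = β := by
  by_cases h : ∃ p : Σ n : ℕ, Fin (n + 2), S p.1 = true ∧ Y = insert (C.e p) C.P
  · obtain ⟨p, hp, rfl⟩ := h
    rw [C.rh_sp S p hp] at h2 ⊢
    apply Equiv.swap_apply_of_ne_of_ne
    · rintro rfl
      exact h1 (Finset.mem_insert_self _ _)
    · rintro rfl
      apply h2
      rw [Finset.mem_image]
      exact ⟨C.e p, Finset.mem_insert_self _ _, Equiv.swap_apply_left _ _⟩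
  · rw [C.rh_ns S h]; rfl

open Classical in
/-- The merging permutation of a set. -/
noncomputable def rho (S : ℕ → Bool) (X : Finset ℕ) : ℕ ≃ ℕ :=
  if (fl I X).card ≤ 1 then Equiv.refl ℕ else C.rh S (X.erase (mx I X))

theorem rho_cp (S : ℕ → Bool) (X : Finset ℕ) : CP I (C.rho S X) := by
  unfold rho
  split_ifs
  · exact cp_one I
  · exact C.rh_cp S _

/-- The structure coding a set. -/
noncomputable def NS (S : ℕ → Bool) : Interp L ℕ := fun k R v =>
  C.N0 k R fun j => C.rho S (Finset.univ.image v) (v j)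

theorem NS_iff (S : ℕ → Bool) {k : ℕ} (R : L.Relations k) {v : Fin k → ℕ} {X : Finset ℕ}
    (hv : Finset.univ.image v = X) : C.NS S k R v ↔
      I k R fun j => C.w0 (X.image (C.rho S X)) (C.rho S X (v j)) := by
  subst hv
  unfold NS N0
  rw [image_comp rfl]

theorem NS_loc (S : ℕ → Bool) : Loc I (C.NS S) := fun X =>
  ⟨(C.rho S X).trans (C.w0 (X.image (C.rho S X))), cp_trans (C.rho_cp S X) (C.w0_cp _),
    fun _ R _ hv => C.NS_iff S R hv⟩

theorem NS_adq (S : ℕ → Bool) : Adq I (C.NS S) := by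
  classical
  intro B z b hzb
  by_cases hB : (fl I B).card ≤ 1
  · obtain ⟨h, hh1, hh2, hh3⟩ := adq_self I B z b hzb
    refine ⟨h, hh1, hh2, fun k R v hv => ?_⟩
    rw [C.NS_iff S R (image_comp hv h)]
    have e1 : C.rho S (B.image h) = Equiv.refl ℕ := by
      unfold rho
      rw [if_pos (by rw [fl_card hh1]; exact hB)]
    have e2 : (B.image h).image (C.rho S (B.image h)) = B.image h := by
      rw [e1]
      exact Finset.image_id
    rw [e2, e1, C.w0_le (by rw [fl_card hh1]; exact hB)]
    exact hh3 k R v hv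
  · -- the set has two points in infinite types
    obtain ⟨α, hα, hαz⟩ : ∃ α ∈ fl I B, α ≠ z := by
      by_contra hcon
      push Not at hcon
      apply hB
      rw [Finset.card_le_one]
      intro x hx y hy
      rw [hcon x hx, hcon y hy]
    obtain ⟨hαB, hαi⟩ := mem_fl.1 hα
    let h0 : ℕ ≃ ℕ := Equiv.swap z b
    have hh0 : CP I h0 := cp_swap hzb
    have h0z : h0 z = b := Equiv.swap_apply_left _ _
    let Y : Finset ℕ := (B.erase α).image h0
    let ρ : ℕ ≃ ℕ := C.rh S Y
    have hρ : CP I ρ := C.rh_cp S Y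
    let Yr : Finset ℕ := Y.image ρ
    obtain ⟨q, hq1, hq2⟩ := (hαi.sdiff Yr.finite_toSet).nonempty
    replace hq1 : ty I q = ty I α := hq1
    replace hq2 : q ∉ Yr := hq2
    -- the inverse of the required permutation
    let f : ℕ → ℕ := fun x => if x = α then q else ρ (h0 x)
    obtain ⟨g, hg1, hg2⟩ := perm_ext I B f (by
      intro x hx y hy hxy
      have hx' : x ∈ B := hx
      have hy' : y ∈ B := hy
      simp only [f] at hxy
      split_ifs at hxy with e1 e2 e2
      · rw [e1, e2]
      · exfalso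
        apply hq2
        rw [hxy]
        exact Finset.mem_image_of_mem _ (Finset.mem_image_of_mem _ (Finset.mem_erase.2 ⟨e2, hy'⟩))
      · exfalso
        apply hq2
        rw [← hxy]
        exact Finset.mem_image_of_mem _ (Finset.mem_image_of_mem _ (Finset.mem_erase.2 ⟨e1, hx'⟩))
      · exact h0.injective (ρ.injective hxy)) (by
      intro x _
      simp only [f]
      split_ifs with e1
      · rw [hq1, e1]
      · exact (hρ _).trans (hh0 _))
    let l : List (ℕ × ℕ) := B.toList.map fun x => (f x, x)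
    have hl : ∀ p ∈ l, lp I l p.1 = p.2 := by
      apply lp_spec
      refine ⟨g.symm, cp_symm hg1, fun p hp => ?_⟩
      obtain ⟨x, hx, rfl⟩ := List.mem_map.1 hp
      rw [Equiv.symm_apply_eq]
      exact (hg2 x (Finset.mem_toList.1 hx)).symm
    have hl' : ∀ x ∈ B, lp I l (f x) = x := fun x hx =>
      hl (f x, x) (List.mem_map.2 ⟨x, Finset.mem_toList.2 hx, rfl⟩)
    obtain ⟨β, hβ1, hβ2, hβ3⟩ := lab_spec I hαi (.inl (l, q)) (Y ∪ (Yr ∪ {q, b, h0 α}))
    have b1 : ∀ y ∈ Y, y < β := fun y hy => hβ1 y (Finset.mem_union_left _ hy)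
    have b2 : ∀ y ∈ Yr, y < β := fun y hy =>
      hβ1 y (Finset.mem_union_right _ (Finset.mem_union_left _ hy))
    have b3 : q < β := hβ1 q (by simp)
    have b4 : b < β := hβ1 b (by simp)
    have n1 : β ∉ Y := fun h => lt_irrefl _ (b1 β h)
    have n2 : β ∉ Yr := fun h => lt_irrefl _ (b2 β h)
    have hβi : InfT I β := (infT_congr hβ2).2 hαi
    have hρβ : ρ β = β := C.rh_fix S n1 n2
    have hs : CP I (Equiv.swap (h0 α) β) := cp_swap ((hh0 α).trans hβ2.symm)
    let h : ℕ ≃ ℕ := h0.trans (Equiv.swap (h0 α) β)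
    have hh : CP I h := cp_trans hh0 hs
    have hhα : h α = β := Equiv.swap_apply_left _ _
    have hhx : ∀ x ∈ B, x ≠ α → h x = h0 x := by
      intro x hx hxα
      apply Equiv.swap_apply_of_ne_of_ne
      · intro e; exact hxα (h0.injective e)
      · intro e
        apply n1
        rw [← e]
        exact Finset.mem_image_of_mem _ (Finset.mem_erase.2 ⟨hxα, hx⟩)
    have hX : B.image h = insert β Y := by
      rw [← Finset.insert_erase hαB, Finset.image_insert, hhα]
      congr 1
      refine Finset.image_congr ?_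
      intro x hx
      have hx' := Finset.mem_erase.1 (show x ∈ B.erase α from hx)
      exact hhx x hx'.2 hx'.1
    have hflX : ¬ (fl I (insert β Y)).card ≤ 1 := by
      rw [← hX, fl_card hh]; exact hB
    have hmx : mx I (insert β Y) = β := mx_insert hβi b1
    have hrho : C.rho S (B.image h) = ρ := by
      unfold rho
      rw [hX, if_neg hflX, hmx, Finset.erase_insert n1]
    have hXr : (B.image h).image (C.rho S (B.image h)) = insert β Yr := by
      rw [hrho, hX, Finset.image_insert, hρβ]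
    have hflXr : ¬ (fl I (insert β Yr)).card ≤ 1 := by
      rw [← hXr, hrho, fl_card hρ, hX]; exact hflX
    have hmx' : mx I (insert β Yr) = β := mx_insert hβi b2
    have hw : C.w0 (insert β Yr) = (Equiv.swap β q).trans (lp I l) := by
      unfold w0
      rw [if_neg hflXr, hmx', hβ3]
      simp only
      rw [if_pos]
      refine ⟨hq1.trans hβ2.symm, fun h => ?_⟩
      rcases Finset.mem_insert.1 h with h' | h'
      · exact b3.ne h'
      · exact hq2 h'
    refine ⟨h, hh, ?_, fun k R v hv => ?_⟩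
    · show Equiv.swap (h0 α) β (h0 z) = b
      rw [h0z]
      apply Equiv.swap_apply_of_ne_of_ne
      · intro e
        rw [← h0z] at e
        exact hαz (h0.injective e).symm
      · exact b4.ne
    · rw [C.NS_iff S R (image_comp hv h), hXr, hrho, hw]
      have : (fun j => ((Equiv.swap β q).trans (lp I l)) (ρ (h (v j)))) = v := by
        funext j
        have hm : v j ∈ B := hv ▸ Finset.mem_image_of_mem _ (Finset.mem_univ j)
        rw [Equiv.trans_apply]
        by_cases e1 : v j = α
        · rw [e1, hhα, hρβ, Equiv.swap_apply_left]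
          have := hl' α hαB
          simp only [f, if_pos] at this
          exact this
        · rw [hhx _ hm e1]
          have h5 : ρ (h0 (v j)) ∈ Yr :=
            Finset.mem_image_of_mem _ (Finset.mem_image_of_mem _ (Finset.mem_erase.2 ⟨e1, hm⟩))
          rw [Equiv.swap_apply_of_ne_of_ne (b2 _ h5).ne (by rintro e; exact hq2 (e ▸ h5))]
          have := hl' (v j) hm
          simp only [f, if_neg e1] at this
          exact this
      rw [this]

end Fr1

end Pool.Agent.H667.UF
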