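import Pool.Agent.H667.UF.Gen

set_option autoImplicit false

/-!
The set of natural numbers coded by the generic construction is an isomorphism invariant.
-/

namespace Pool.Agent.H667.UF

open FirstOrder Set
open Pool.Agent.H565R2.FO2 (Interp Code toI ofI toI_ofI Iso)

variable {L : FirstOrder.Language.{0, 0}}

namespace Fr1

variable {I : Interp L ℕ} (C : Fr1 I)

/-- The words `u β` and `u' β` have the same relations. -/
def Tb (N : Interp L ℕ) (u u' : ℕ → ℕ) (β : ℕ) : Prop :=
  ∀ (k : ℕ) (R : L.Relations k) (v : Fin k → ℕ), Finset.univ.image v = C.A →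
    (N k R (fun j => Function.update u C.a2 β (v j)) ↔
      N k R fun j => Function.update u' C.a2 β (v j))

/-- The words have the same relations with almost all points. -/
def Sm (N : Interp L ℕ) (u u' : ℕ → ℕ) : Prop :=
  {β | ty I β = ty I C.a2 ∧ ¬ C.Tb N u u' β}.Finite

/-- Similar points over `p`. -/
def Sim (N : Interp L ℕ) (p : ℕ → ℕ) (a a' : ℕ) : Prop :=
  C.Sm N (Function.update p C.a1 a) (Function.update p C.a1 a')

/-- Words which preserve types. -/
def Vd (X : Finset ℕ) (u : ℕ → ℕ) : Prop := Set.InjOn u X ∧ ∀ x ∈ X, ty I (u x) = ty I x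

/-- The invariant. -/
def Jg (N : Interp L ℕ) (n : ℕ) : Prop :=
  ∃ p : ℕ → ℕ, Vd (I := I) C.P p ∧ ∃ a, ty I a = ty I C.a1 ∧ a ∉ C.P.image p ∧
    ∃ T : Finset ℕ, T.card = n + 2 ∧
      ∀ a', a' ∈ T ↔ ty I a' = ty I C.a1 ∧ a' ∉ C.P.image p ∧ C.Sim N p a a'

theorem upd_comp (g : ℕ → ℕ) (u : ℕ → ℕ) (x β y : ℕ) :
    g (Function.update u x β y) = Function.update (fun z => g (u z)) x (g β) y := by
  by_cases h : y = x
  · subst h; simp
  · simp [h]

theorem tb_iso {N N' : Interp L ℕ} {g : ℕ ≃ ℕ}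
    (h : ∀ k (R : L.Relations k) (v : Fin k → ℕ), N k R v ↔ N' k R fun j => g (v j))
    (u u' : ℕ → ℕ) (β : ℕ) :
    C.Tb N u u' β ↔ C.Tb N' (fun z => g (u z)) (fun z => g (u' z)) (g β) := by
  unfold Tb
  refine forall_congr' fun k => forall_congr' fun R => forall_congr' fun v =>
    forall_congr' fun _ => ?_
  rw [h, h]
  simp only [upd_comp g]

theorem sm_iso {N N' : Interp L ℕ} {g : ℕ ≃ ℕ} (hg : CP I g)
    (h : ∀ k (R : L.Relations k) (v : Fin k → ℕ), N k R v ↔ N' k R fun j => g (v j))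
    (u u' : ℕ → ℕ) : C.Sm N u u' ↔ C.Sm N' (fun z => g (u z)) (fun z => g (u' z)) := by
  unfold Sm
  have : {β | ty I β = ty I C.a2 ∧ ¬ C.Tb N' (fun z => g (u z)) (fun z => g (u' z)) β} =
      g '' {β | ty I β = ty I C.a2 ∧ ¬ C.Tb N u u' β} := by
    ext β
    constructor
    · rintro ⟨h1, h2⟩
      refine ⟨g.symm β, ⟨by rw [cp_symm hg, h1], ?_⟩, by simp⟩
      rw [C.tb_iso h]
      simpa using h2
    · rintro ⟨β, ⟨h1, h2⟩, rfl⟩
      refine ⟨by rw [hg, h1], ?_⟩
      rw [← C.tb_iso h]
      exact h2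
  rw [this, Set.finite_image_iff g.injective.injOn]

theorem sim_iso {N N' : Interp L ℕ} {g : ℕ ≃ ℕ} (hg : CP I g)
    (h : ∀ k (R : L.Relations k) (v : Fin k → ℕ), N k R v ↔ N' k R fun j => g (v j))
    (p : ℕ → ℕ) (a a' : ℕ) : C.Sim N p a a' ↔ C.Sim N' (fun z => g (p z)) (g a) (g a') := by
  unfold Sim
  rw [C.sm_iso hg h]
  have e : ∀ a, (fun z => g (Function.update p C.a1 a z)) =
      Function.update (fun z => g (p z)) C.a1 (g a) := by
    intro a
    funext z
    exact upd_comp g p C.a1 a z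
  rw [e, e]

theorem jg_iso {N N' : Interp L ℕ} {g : ℕ ≃ ℕ} (hg : CP I g)
    (h : ∀ k (R : L.Relations k) (v : Fin k → ℕ), N k R v ↔ N' k R fun j => g (v j)) (n : ℕ)
    (hJ : C.Jg N n) : C.Jg N' n := by
  obtain ⟨p, ⟨hp1, hp2⟩, a, ha1, ha2, T, hT, hT'⟩ := hJ
  have him : C.P.image (fun z => g (p z)) = (C.P.image p).image g := by
    rw [Finset.image_image]; rfl
  have hmem : ∀ y, g y ∉ C.P.image (fun z => g (p z)) ↔ y ∉ C.P.image p := by
    intro y
    rw [him, Finset.mem_image]
    constructor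
    · intro h h'
      exact h ⟨y, h', rfl⟩
    · rintro h ⟨y', hy', e⟩
      exact h (g.injective e ▸ hy')
  refine ⟨fun z => g (p z), ⟨fun x hx y hy e => hp1 hx hy (g.injective e), fun x hx => ?_⟩, g a, ?_,
    (hmem a).2 ha2, T.map g.toEmbedding, by rw [Finset.card_map, hT], fun a' => ?_⟩
  · show ty I (g (p x)) = ty I x
    rw [hg, hp2 x hx]
  · rw [hg, ha1]
  · obtain ⟨b, rfl⟩ := g.surjective a'
    rw [Finset.mem_map_equiv, Equiv.symm_apply_apply, hT' b, hg b, hmem b, C.sim_iso hg h]

/-- Words which preserve types extend to permutations. -/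
theorem vd_ext {X : Finset ℕ} {u : ℕ → ℕ} (h : Vd (I := I) X u) :
    ∃ g : ℕ ≃ ℕ, CP I g ∧ ∀ x ∈ X, g x = u x := perm_ext I X u h.1 h.2

theorem a1_D : C.a1 ∈ C.D := Finset.mem_erase.2 ⟨C.hne, C.h1⟩

theorem insert_D : insert C.a2 C.D = C.A := Finset.insert_erase C.h2

theorem insert_P : insert C.a1 C.P = C.D := Finset.insert_erase C.a1_D

theorem a2_D : C.a2 ∉ C.D := Finset.notMem_erase _ _

theorem a1_P : C.a1 ∉ C.P := Finset.notMem_erase _ _

theorem img_upd {u : ℕ → ℕ} {β : ℕ} :
    C.A.image (Function.update u C.a2 β) = insert β (C.D.image u) := by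
  rw [← C.insert_D, Finset.image_insert, Function.update_self]
  congr 1
  refine Finset.image_congr fun x hx => ?_
  exact Function.update_of_ne (by rintro rfl; exact C.a2_D hx) _ _

theorem not_le {u : ℕ → ℕ} {β : ℕ} (hu : Vd (I := I) C.D u) (hβ : InfT I β)
    (hβu : β ∉ C.D.image u) : ¬ (fl I (insert β (C.D.image u))).card ≤ 1 := by
  intro h
  rw [Finset.card_le_one] at h
  have h1 : β ∈ fl I (insert β (C.D.image u)) := mem_fl.2 ⟨Finset.mem_insert_self _ _, hβ⟩
  have h2 : u C.a1 ∈ fl I (insert β (C.D.image u)) :=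
    mem_fl.2 ⟨Finset.mem_insert_of_mem (Finset.mem_image_of_mem u C.a1_D),
      (infT_congr (hu.2 _ C.a1_D)).2 C.i1⟩
  apply hβu
  rw [h β h1 _ h2]
  exact Finset.mem_image_of_mem u C.a1_D

/-- The permutation of the set attached to a word. -/
noncomputable def pi (u : ℕ → ℕ) (x : ℕ) : ℕ :=
  if x = C.a2 then C.a2 else (C.ord (C.D.image u)).symm (u x)

theorem pi_ord {u : ℕ → ℕ} (hu : Vd (I := I) C.D u) :
    C.D.image (C.ord (C.D.image u)) = C.D.image u := by
  obtain ⟨g, hg1, hg2⟩ := vd_ext hu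
  exact C.ord_spec ⟨g, hg1, Finset.image_congr fun x hx => hg2 x hx⟩

theorem pi_maps {u : ℕ → ℕ} (hu : Vd (I := I) C.D u) {x : ℕ} (hx : x ∈ C.D) :
    C.pi u x ∈ C.D := by
  unfold pi
  rw [if_neg (by rintro rfl; exact C.a2_D hx)]
  have h1 : u x ∈ C.D.image (C.ord (C.D.image u)) := by
    rw [C.pi_ord hu]; exact Finset.mem_image_of_mem u hx
  obtain ⟨y, hy, hy'⟩ := Finset.mem_image.1 h1
  rw [← hy', Equiv.symm_apply_apply]
  exact hy

/-- The relations of the basic structure on a word, for the points with a coding label. -/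
theorem N0_code {u : ℕ → ℕ} (hu : Vd (I := I) C.D u) {β n : ℕ} (hβ : ty I β = ty I C.a2)
    (hl : lab I β = .inr n) (hβu : ∀ y ∈ C.D.image u, y < β) {k : ℕ} (R : L.Relations k)
    {v : Fin k → ℕ} (hv : Finset.univ.image v = C.A) :
    C.N0 k R (fun j => Function.update u C.a2 β (v j)) ↔
      if code (C.D.image u) = n then I k R (fun j => C.pi u (v j))
      else I k R fun j => C.h (C.pi u (v j)) := by
  have hβi : InfT I β := (infT_congr hβ).2 C.i2
  have n1 : β ∉ C.D.image u := fun h => lt_irrefl _ (hβu β h)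
  have hmx : mx I (insert β (C.D.image u)) = β := mx_insert hβi hβu
  unfold N0
  rw [image_comp hv, C.img_upd]
  unfold w0
  rw [if_neg (C.not_le hu hβi n1), hmx, hl]
  simp only
  rw [if_pos hβ, Finset.erase_insert n1]
  have e : ∀ j, ((C.ord (C.D.image u)).trans
      (Equiv.swap (C.ord (C.D.image u) C.a2) β)).symm (Function.update u C.a2 β (v j)) =
        C.pi u (v j) := by
    intro j
    rw [Equiv.symm_apply_eq, Equiv.trans_apply]
    have hm : v j ∈ C.A := hv ▸ Finset.mem_image_of_mem _ (Finset.mem_univ j)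
    by_cases h1 : v j = C.a2
    · rw [h1, Function.update_self]
      unfold pi
      rw [if_pos rfl, Equiv.swap_apply_left]
    · rw [Function.update_of_ne h1]
      unfold pi
      rw [if_neg h1, Equiv.apply_symm_apply]
      have hD : v j ∈ C.D := Finset.mem_erase.2 ⟨h1, hm⟩
      symm
      apply Equiv.swap_apply_of_ne_of_ne
      · intro e
        have h2 : u (v j) ∈ C.D.image (C.ord (C.D.image u)) := by
          rw [C.pi_ord hu]; exact Finset.mem_image_of_mem u hD
        obtain ⟨y, hy, hy'⟩ := Finset.mem_image.1 h2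
        rw [← hy'] at e
        exact C.a2_D ((C.ord (C.D.image u)).injective e ▸ hy)
      · intro e
        exact n1 (e ▸ Finset.mem_image_of_mem u hD)
  split_ifs with h1
  · simp only [e]
  · simp only [Equiv.trans_apply, e]

/-- Words with different sets of values are separated. -/
theorem N0_sep {u u' : ℕ → ℕ} (hu : Vd (I := I) C.D u) (hu' : Vd (I := I) C.D u')
    (hne : C.D.image u ≠ C.D.image u') : ¬ C.Sm C.N0 u u' := by
  classical
  intro hfin0
  have hfin : {β | ty I β = ty I C.a2 ∧ ¬ C.Tb C.N0 u u' β}.Finite := hfin0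
  let E : Finset ℕ := hfin.toFinset ∪ (C.D.image u ∪ C.D.image u')
  have key : ∀ n : ℕ, ∃ β, ty I β = ty I C.a2 ∧ lab I β = .inr n ∧ C.Tb C.N0 u u' β ∧
      (∀ y ∈ C.D.image u, y < β) ∧ ∀ y ∈ C.D.image u', y < β := by
    intro n
    obtain ⟨β, h1, h2, h3⟩ := lab_spec I C.i2 (.inr n) E
    refine ⟨β, h2, h3, ?_, fun y hy => h1 y ?_, fun y hy => h1 y ?_⟩
    · by_contra hcon
      have h4 : β ∈ hfin.toFinset := by
        rw [Set.Finite.mem_toFinset]
        exact ⟨h2, hcon⟩
      exact lt_irrefl _ (h1 β (Finset.mem_union_left _ h4))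
    · exact Finset.mem_union_right _ (Finset.mem_union_left _ hy)
    · exact Finset.mem_union_right _ (Finset.mem_union_right _ hy)
  have hc : code (C.D.image u) ≠ code (C.D.image u') := fun h => hne (code_inj h)
  obtain ⟨m, hm⟩ := Infinite.exists_notMem_finset
    ({code (C.D.image u), code (C.D.image u')} : Finset ℕ)
  have hm1 : code (C.D.image u) ≠ m := fun h => hm (by simp [h])
  have hm2 : code (C.D.image u') ≠ m := fun h => hm (by simp [h])
  obtain ⟨β1, b1, b2, b3, b4, b5⟩ := key (code (C.D.image u'))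
  obtain ⟨β2, c1, c2, c3, c4, c5⟩ := key m
  -- the permutation of the set
  have hpi : Set.InjOn (C.pi u') C.A := by
    intro x hx y hy hxy
    by_cases h1 : x = C.a2
    · by_cases h2 : y = C.a2
      · rw [h1, h2]
      · exfalso
        have hy' : y ∈ C.D := Finset.mem_erase.2 ⟨h2, hy⟩
        have h3 := C.pi_maps hu' hy'
        rw [← hxy, h1] at h3
        unfold pi at h3
        rw [if_pos rfl] at h3
        exact C.a2_D h3
    · by_cases h2 : y = C.a2
      · exfalso
        have hx' : x ∈ C.D := Finset.mem_erase.2 ⟨h1, hx⟩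
        have h3 := C.pi_maps hu' hx'
        rw [hxy, h2] at h3
        unfold pi at h3
        rw [if_pos rfl] at h3
        exact C.a2_D h3
      · unfold pi at hxy
        rw [if_neg h1, if_neg h2] at hxy
        exact hu'.1 (Finset.mem_erase.2 ⟨h1, hx⟩) (Finset.mem_erase.2 ⟨h2, hy⟩)
          ((C.ord (C.D.image u')).symm.injective hxy)
  have hmaps : ∀ x ∈ C.A, C.pi u' x ∈ C.A := by
    intro x hx
    by_cases h1 : x = C.a2
    · unfold pi
      rw [if_pos h1]
      exact C.h2
    · exact Finset.mem_of_mem_erase (C.pi_maps hu' (Finset.mem_erase.2 ⟨h1, hx⟩))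
  have hsurj : C.A.image (C.pi u') = C.A := by
    apply Finset.eq_of_subset_of_card_le
    · intro y hy
      obtain ⟨x, hx, rfl⟩ := Finset.mem_image.1 hy
      exact hmaps x hx
    · rw [Finset.card_image_of_injOn hpi]
  -- a preimage of the tuple of freedom
  have hpre : ∀ j, ∃ y ∈ C.A, C.pi u' y = C.v j := by
    intro j
    have h1 : C.v j ∈ C.A.image (C.pi u') := by
      rw [hsurj, ← C.hv]
      exact Finset.mem_image_of_mem _ (Finset.mem_univ j)
    obtain ⟨y, hy, hy'⟩ := Finset.mem_image.1 h1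
    exact ⟨y, hy, hy'⟩
  choose w hw1 hw2 using hpre
  have hwA : Finset.univ.image w = C.A := by
    apply Finset.Subset.antisymm
    · intro y hy
      obtain ⟨j, -, rfl⟩ := Finset.mem_image.1 hy
      exact hw1 j
    · intro y hy
      have h1 : C.pi u' y ∈ Finset.univ.image C.v := by
        rw [C.hv]; exact hmaps y hy
      obtain ⟨j, -, hj⟩ := Finset.mem_image.1 h1
      rw [Finset.mem_image]
      refine ⟨j, Finset.mem_univ _, ?_⟩
      exact hpi (hw1 j) hy ((hw2 j).trans hj)
  have e1 := b3 C.k C.R w hwA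
  have e2 := c3 C.k C.R w hwA
  rw [C.N0_code hu b1 b2 b4 C.R hwA, C.N0_code hu' b1 b2 b5 C.R hwA, if_neg hc, if_pos rfl] at e1
  rw [C.N0_code hu c1 c2 c4 C.R hwA, C.N0_code hu' c1 c2 c5 C.R hwA, if_neg hm1, if_neg hm2] at e2
  have e3 : (fun j => C.pi u' (w j)) = C.v := funext hw2
  have e4 : (fun j => C.h (C.pi u' (w j))) = fun j => C.h (C.v j) := by
    funext j; rw [hw2]
  rw [e3] at e1
  rw [e4] at e2
  exact C.hR (e2.symm.trans e1)

/-- The relations of the coding structure on a word are those of the basic structure on the merged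
word, for almost all points. -/
theorem NS_N0 (S : ℕ → Bool) {u : ℕ → ℕ} (hu : Vd (I := I) C.D u) {β : ℕ}
    (hβ : ty I β = ty I C.a2) (h1 : ∀ y ∈ C.D.image u, y < β)
    (h2 : ∀ y ∈ (C.D.image u).image (C.rh S (C.D.image u)), y < β) {k : ℕ} (R : L.Relations k)
    {v : Fin k → ℕ} (hv : Finset.univ.image v = C.A) :
    C.NS S k R (fun j => Function.update u C.a2 β (v j)) ↔
      C.N0 k R fun j => Function.update (fun x => C.rh S (C.D.image u) (u x)) C.a2 β (v j) := by
  have hβi : InfT I β := (infT_congr hβ).2 C.i2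
  have n1 : β ∉ C.D.image u := fun h => lt_irrefl _ (h1 β h)
  have n2 : β ∉ (C.D.image u).image (C.rh S (C.D.image u)) := fun h => lt_irrefl _ (h2 β h)
  have hmx : mx I (insert β (C.D.image u)) = β := mx_insert hβi h1
  have hfix : C.rh S (C.D.image u) β = β := C.rh_fix S n1 n2
  unfold NS
  have hrho : C.rho S (insert β (C.D.image u)) = C.rh S (C.D.image u) := by
    unfold rho
    rw [if_neg (C.not_le hu hβi n1), hmx, Finset.erase_insert n1]
  have : (fun j => C.rho S (Finset.univ.image fun j => Function.update u C.a2 β (v j))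
      (Function.update u C.a2 β (v j))) =
      fun j => Function.update (fun x => C.rh S (C.D.image u) (u x)) C.a2 β (v j) := by
    funext j
    rw [image_comp hv, C.img_upd, hrho, upd_comp (C.rh S (C.D.image u)), hfix]
  rw [this]

theorem rh_vd (S : ℕ → Bool) {u : ℕ → ℕ} (hu : Vd (I := I) C.D u) (Y : Finset ℕ) :
    Vd (I := I) C.D fun x => C.rh S Y (u x) :=
  ⟨fun _ hx _ hy h => hu.1 hx hy ((C.rh S Y).injective h), fun x hx =>
    (C.rh_cp S Y _).trans (hu.2 x hx)⟩

/-- Similar words, in the coding structure. -/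
theorem NS_Sm (S : ℕ → Bool) {u u' : ℕ → ℕ} (hu : Vd (I := I) C.D u) (hu' : Vd (I := I) C.D u') :
    C.Sm (C.NS S) u u' ↔ C.Sm C.N0 (fun x => C.rh S (C.D.image u) (u x))
      (fun x => C.rh S (C.D.image u') (u' x)) := by
  classical
  have key : ∀ β, ty I β = ty I C.a2 →
      (∀ y ∈ C.D.image u ∪ (C.D.image u).image (C.rh S (C.D.image u)), y < β) →
      (∀ y ∈ C.D.image u' ∪ (C.D.image u').image (C.rh S (C.D.image u')), y < β) →
      (C.Tb (C.NS S) u u' β ↔ C.Tb C.N0 (fun x => C.rh S (C.D.image u) (u x))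
        (fun x => C.rh S (C.D.image u') (u' x)) β) := by
    intro β h1 h2 h3
    unfold Tb
    refine forall_congr' fun k => forall_congr' fun R => forall_congr' fun v =>
      forall_congr' fun hv => ?_
    rw [C.NS_N0 S hu h1 (fun y hy => h2 y (Finset.mem_union_left _ hy))
      (fun y hy => h2 y (Finset.mem_union_right _ hy)) R hv,
      C.NS_N0 S hu' h1 (fun y hy => h3 y (Finset.mem_union_left _ hy))
      (fun y hy => h3 y (Finset.mem_union_right _ hy)) R hv]
  let E : Finset ℕ := (C.D.image u ∪ (C.D.image u).image (C.rh S (C.D.image u))) ∪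
    (C.D.image u' ∪ (C.D.image u').image (C.rh S (C.D.image u')))
  have hE : ∀ β, β ∉ {β | β ≤ E.sup id} → ∀ y ∈ E, y < β := by
    intro β hβ y hy
    have h1 : y ≤ E.sup id := Finset.le_sup (f := id) hy
    have h2 : ¬ β ≤ E.sup id := hβ
    omega
  have hfinE : {β | β ≤ E.sup id}.Finite := Set.finite_Iic _
  unfold Sm
  constructor
  · intro h
    refine (h.union hfinE).subset ?_
    rintro β ⟨h1, h2⟩
    by_cases hb : β ∈ {β | β ≤ E.sup id}
    · exact Or.inr hb
    · left
      refine ⟨h1, fun h3 => h2 ?_⟩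
      exact (key β h1 (fun y hy => hE β hb y (Finset.mem_union_left _ hy))
        (fun y hy => hE β hb y (Finset.mem_union_right _ hy))).1 h3
  · intro h
    refine (h.union hfinE).subset ?_
    rintro β ⟨h1, h2⟩
    by_cases hb : β ∈ {β | β ≤ E.sup id}
    · exact Or.inr hb
    · left
      refine ⟨h1, fun h3 => h2 ?_⟩
      exact (key β h1 (fun y hy => hE β hb y (Finset.mem_union_left _ hy))
        (fun y hy => hE β hb y (Finset.mem_union_right _ hy))).2 h3

theorem vd_upd {p : ℕ → ℕ} (hp : Vd (I := I) C.P p) {a : ℕ} (ha : ty I a = ty I C.a1)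
    (ha' : a ∉ C.P.image p) : Vd (I := I) C.D (Function.update p C.a1 a) := by
  have hu : ∀ x ∈ C.P, Function.update p C.a1 a x = p x := fun x hx =>
    Function.update_of_ne (by rintro rfl; exact C.a1_P hx) _ _
  rw [← C.insert_P]
  constructor
  · intro x hx y hy hxy
    rcases Finset.mem_insert.1 (Finset.mem_coe.1 hx) with rfl | hx'
    · rcases Finset.mem_insert.1 (Finset.mem_coe.1 hy) with rfl | hy'
      · rfl
      · rw [Function.update_self, hu y hy'] at hxy
        exact absurd (hxy ▸ Finset.mem_image_of_mem p hy') ha'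
    · rcases Finset.mem_insert.1 (Finset.mem_coe.1 hy) with rfl | hy'
      · rw [Function.update_self, hu x hx'] at hxy
        exact absurd (hxy ▸ Finset.mem_image_of_mem p hx') ha'
      · rw [hu x hx', hu y hy'] at hxy
        exact hp.1 hx' hy' hxy
  · intro x hx
    rcases Finset.mem_insert.1 hx with rfl | hx'
    · rw [Function.update_self, ha]
    · rw [hu x hx', hp.2 x hx']

theorem img_upd1 (p : ℕ → ℕ) (a : ℕ) :
    C.D.image (Function.update p C.a1 a) = insert a (C.P.image p) := by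
  rw [← C.insert_P, Finset.image_insert, Function.update_self]
  congr 1
  refine Finset.image_congr fun x hx => ?_
  exact Function.update_of_ne (by rintro rfl; exact C.a1_P hx) _ _

theorem sg_sp (S : ℕ → Bool) (p : Σ n : ℕ, Fin (n + 2)) (hp : S p.1 = true) :
    (insert (C.e p) C.P).image (C.rh S (insert (C.e p) C.P)) = insert (C.e ⟨p.1, 0⟩) C.P := by
  rw [C.rh_sp S p hp, Finset.image_insert, Equiv.swap_apply_left]
  congr 1
  conv_rhs => rw [← Finset.image_id (s := C.P)]
  refine Finset.image_congr fun x hx => ?_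
  apply Equiv.swap_apply_of_ne_of_ne
  · rintro rfl; exact C.e_notP _ hx
  · rintro rfl; exact C.e_notP _ hx

/-- Similar points form the groups of the set. -/
theorem sim_cases {S : ℕ → Bool} {p : ℕ → ℕ} (hp : Vd (I := I) C.P p) {a a' : ℕ}
    (ha : ty I a = ty I C.a1) (haP : a ∉ C.P.image p) (ha' : ty I a' = ty I C.a1)
    (haP' : a' ∉ C.P.image p) (hne : a ≠ a') (h : C.Sim (C.NS S) p a a') :
    ∃ (n : ℕ) (i j : Fin (n + 2)), S n = true ∧ a = C.e ⟨n, i⟩ ∧ a' = C.e ⟨n, j⟩ ∧
      C.P.image p = C.P := by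
  classical
  have hu := C.vd_upd hp ha haP
  have hu' := C.vd_upd hp ha' haP'
  have h1 := (C.NS_Sm S hu hu').1 h
  have h2 : (C.D.image (Function.update p C.a1 a)).image
        (C.rh S (C.D.image (Function.update p C.a1 a))) =
      (C.D.image (Function.update p C.a1 a')).image
        (C.rh S (C.D.image (Function.update p C.a1 a'))) := by
    by_contra hcon
    refine C.N0_sep (C.rh_vd S hu _) (C.rh_vd S hu' _) ?_ h1
    rw [Finset.image_image, Finset.image_image] at hcon
    exact hcon
  rw [C.img_upd1, C.img_upd1] at h2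
  have hYY : insert a (C.P.image p) ≠ insert a' (C.P.image p) := by
    intro e
    have : a ∈ insert a' (C.P.image p) := e ▸ Finset.mem_insert_self _ _
    rcases Finset.mem_insert.1 this with h3 | h3
    · exact hne h3
    · exact haP h3
  by_cases s1 : ∃ q : Σ n : ℕ, Fin (n + 2), S q.1 = true ∧
      insert a (C.P.image p) = insert (C.e q) C.P
  · obtain ⟨q, hq1, hq2⟩ := s1
    by_cases s2 : ∃ q' : Σ n : ℕ, Fin (n + 2), S q'.1 = true ∧
        insert a' (C.P.image p) = insert (C.e q') C.P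
    · obtain ⟨q', hq1', hq2'⟩ := s2
      rw [hq2, hq2', C.sg_sp S q hq1, C.sg_sp S q' hq1'] at h2
      have h3 : q.1 = q'.1 := (Sigma.mk.inj_iff.1
        (C.ins_inj (p := ⟨q.1, 0⟩) (q := ⟨q'.1, 0⟩) h2)).1
      have hqq : C.e q ≠ C.e q' := by
        intro e
        apply hYY
        rw [hq2, hq2', e]
      have hsub : C.P.image p ⊆ C.P := by
        intro y hy
        have h4 : y ∈ insert (C.e q) C.P := hq2 ▸ Finset.mem_insert_of_mem hy
        have h5 : y ∈ insert (C.e q') C.P := hq2' ▸ Finset.mem_insert_of_mem hy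
        rcases Finset.mem_insert.1 h4 with h6 | h6
        · rcases Finset.mem_insert.1 h5 with h7 | h7
          · exact absurd (h6.symm.trans h7) hqq
          · exact h7
        · exact h6
      have hP : C.P.image p = C.P := Finset.eq_of_subset_of_card_le hsub (by
        rw [Finset.card_image_of_injOn hp.1])
      have h8 : a = C.e q := by
        have : a ∈ insert (C.e q) C.P := hq2 ▸ Finset.mem_insert_self _ _
        rcases Finset.mem_insert.1 this with h9 | h9
        · exact h9
        · exact absurd (hP.symm ▸ h9) haP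
      have h8' : a' = C.e q' := by
        have : a' ∈ insert (C.e q') C.P := hq2' ▸ Finset.mem_insert_self _ _
        rcases Finset.mem_insert.1 this with h9 | h9
        · exact h9
        · exact absurd (hP.symm ▸ h9) haP'
      obtain ⟨n, i⟩ := q
      obtain ⟨n', j⟩ := q'
      have h3' : n = n' := h3
      subst h3'
      exact ⟨n, i, j, hq1, h8, h8', hP⟩
    · exfalso
      rw [hq2, C.sg_sp S q hq1, C.rh_ns S s2] at h2
      apply s2
      refine ⟨⟨q.1, 0⟩, hq1, ?_⟩
      rw [h2]
      exact (Finset.image_id (s := insert a' (C.P.image p))).symm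
  · by_cases s2 : ∃ q' : Σ n : ℕ, Fin (n + 2), S q'.1 = true ∧
        insert a' (C.P.image p) = insert (C.e q') C.P
    · exfalso
      obtain ⟨q', hq1', hq2'⟩ := s2
      rw [hq2', C.sg_sp S q' hq1', C.rh_ns S s1] at h2
      apply s1
      refine ⟨⟨q'.1, 0⟩, hq1', ?_⟩
      rw [← h2]
      exact (Finset.image_id (s := insert a (C.P.image p))).symm
    · exfalso
      rw [C.rh_ns S s1, C.rh_ns S s2] at h2
      apply hYY
      have e1 : (insert a (C.P.image p)).image (Equiv.refl ℕ) = insert a (C.P.image p) :=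
        Finset.image_id
      have e2 : (insert a' (C.P.image p)).image (Equiv.refl ℕ) = insert a' (C.P.image p) :=
        Finset.image_id
      rw [e1, e2] at h2
      exact h2

theorem sm_of_eq (N : Interp L ℕ) {f f' : ℕ → ℕ} (h : ∀ x ∈ C.D, f x = f' x) : C.Sm N f f' := by
  unfold Sm
  convert Set.finite_empty
  ext β
  simp only [Set.mem_ofPred_eq, Set.mem_empty_iff_false, iff_false, not_and, not_not]
  intro _ k R v hv
  have : (fun j => Function.update f C.a2 β (v j)) = fun j => Function.update f' C.a2 β (v j) := by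
    funext j
    have hm : v j ∈ C.A := hv ▸ Finset.mem_image_of_mem _ (Finset.mem_univ j)
    by_cases h1 : v j = C.a2
    · rw [h1, Function.update_self, Function.update_self]
    · rw [Function.update_of_ne h1, Function.update_of_ne h1]
      exact h _ (Finset.mem_erase.2 ⟨h1, hm⟩)
  rw [this]

theorem sim_of {S : ℕ → Bool} {p : ℕ → ℕ} (hp : Vd (I := I) C.P p) (hP : C.P.image p = C.P)
    {n : ℕ} (hn : S n = true) (i j : Fin (n + 2)) :
    C.Sim (C.NS S) p (C.e ⟨n, i⟩) (C.e ⟨n, j⟩) := by
  have hv : ∀ i : Fin (n + 2), C.e ⟨n, i⟩ ∉ C.P.image p := fun i => by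
    rw [hP]; exact C.e_notP _
  unfold Sim
  rw [C.NS_Sm S (C.vd_upd hp (C.e_ty _) (hv i)) (C.vd_upd hp (C.e_ty _) (hv j))]
  have key : ∀ i : Fin (n + 2), ∀ x ∈ C.D,
      C.rh S (C.D.image (Function.update p C.a1 (C.e ⟨n, i⟩)))
        (Function.update p C.a1 (C.e ⟨n, i⟩) x) = Function.update p C.a1 (C.e ⟨n, 0⟩) x := by
    intro i x hx
    rw [C.img_upd1, hP, C.rh_sp S ⟨n, i⟩ hn]
    by_cases h1 : x = C.a1
    · rw [h1, Function.update_self, Function.update_self, Equiv.swap_apply_left]
    · rw [Function.update_of_ne h1, Function.update_of_ne h1]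
      have hxP : x ∈ C.P := Finset.mem_erase.2 ⟨h1, hx⟩
      have h2 : p x ∈ C.P := hP ▸ Finset.mem_image_of_mem p hxP
      apply Equiv.swap_apply_of_ne_of_ne
      · intro e; exact C.e_notP _ (e ▸ h2)
      · intro e; exact C.e_notP _ (e ▸ h2)
  exact C.sm_of_eq _ fun x hx => (key i x hx).trans (key j x hx).symm

theorem jg_iff (S : ℕ → Bool) (n : ℕ) : C.Jg (C.NS S) n ↔ S n = true := by
  classical
  constructor
  · rintro ⟨p, hp, a, ha, haP, T, hT, hT'⟩
    obtain ⟨a', ha'T, ha'⟩ := Finset.exists_mem_ne (by rw [hT]; omega : 1 < T.card) a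
    obtain ⟨h1, h2, h3⟩ := (hT' a').1 ha'T
    obtain ⟨m, i, j, hm, hai, -, hP⟩ := C.sim_cases hp ha haP h1 h2 (Ne.symm ha') h3
    have hTe : T = Finset.univ.image fun j : Fin (m + 2) => C.e ⟨m, j⟩ := by
      ext b
      rw [Finset.mem_image, hT']
      constructor
      · rintro ⟨h4, h5, h6⟩
        by_cases hb : a = b
        · exact ⟨i, Finset.mem_univ _, by rw [← hb, hai]⟩
        · obtain ⟨m', i', j', -, h7, h8, -⟩ := C.sim_cases hp ha haP h4 h5 hb h6
          have h9 : m = m' := congrArg Sigma.fst (C.e_inj (hai.symm.trans h7))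
          subst h9
          exact ⟨j', Finset.mem_univ _, h8.symm⟩
      · rintro ⟨j', -, rfl⟩
        refine ⟨C.e_ty _, by rw [hP]; exact C.e_notP _, ?_⟩
        rw [hai]
        exact C.sim_of hp hP hm i j'
    rw [hTe, Finset.card_image_of_injective _ (by
      intro x y hxy
      have := C.e_inj hxy
      simpa using this), Finset.card_univ, Fintype.card_fin] at hT
    have : m = n := by omega
    rw [← this]; exact hm
  · intro hn
    have hp : Vd (I := I) C.P id := ⟨fun _ _ _ _ h => h, fun _ _ => rfl⟩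
    have hP : C.P.image id = C.P := Finset.image_id
    refine ⟨id, hp, C.e ⟨n, 0⟩, C.e_ty _, by rw [hP]; exact C.e_notP _,
      Finset.univ.image fun j : Fin (n + 2) => C.e ⟨n, j⟩, ?_, fun b => ?_⟩
    · rw [Finset.card_image_of_injective _ (by
        intro x y hxy
        have := C.e_inj hxy
        simpa using this), Finset.card_univ, Fintype.card_fin]
    · rw [Finset.mem_image]
      constructor
      · rintro ⟨j', -, rfl⟩
        exact ⟨C.e_ty _, by rw [hP]; exact C.e_notP _, C.sim_of hp hP hn 0 j'⟩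
      · rintro ⟨h4, h5, h6⟩
        by_cases hb : C.e ⟨n, 0⟩ = b
        · exact ⟨0, Finset.mem_univ _, hb⟩
        · obtain ⟨m', i', j', -, h7, h8, -⟩ := C.sim_cases hp (C.e_ty _)
            (by rw [hP]; exact C.e_notP _) h4 h5 hb h6
          have h9 : n = m' := congrArg Sigma.fst (C.e_inj h7)
          subst h9
          exact ⟨j', Finset.mem_univ _, h8.symm⟩

theorem rh_dep (Y : Finset ℕ) : ∃ F : Finset ℕ, ∀ S S' : ℕ → Bool,
    (∀ n ∈ F, S n = S' n) → C.rh S Y = C.rh S' Y := by
  by_cases h : ∃ p, Y = insert (C.e p) C.P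
  · obtain ⟨p, rfl⟩ := h
    refine ⟨{p.1}, fun S S' hS => ?_⟩
    have hSS := hS p.1 (Finset.mem_singleton_self _)
    by_cases hp : S p.1 = true
    · rw [C.rh_sp S p hp, C.rh_sp S' p (hSS ▸ hp)]
    · have key : ∀ S : ℕ → Bool, ¬ S p.1 = true → C.rh S (insert (C.e p) C.P) =
          Equiv.refl ℕ := by
        intro S hp
        apply C.rh_ns
        rintro ⟨q, hq, hq'⟩
        rw [← C.ins_inj hq'] at hq
        exact hp hq
      rw [key S hp, key S' (hSS ▸ hp)]
  · refine ⟨∅, fun S S' _ => ?_⟩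
    have key : ∀ S : ℕ → Bool, C.rh S Y = Equiv.refl ℕ := by
      intro S
      apply C.rh_ns
      rintro ⟨q, hq, hq'⟩
      exact h ⟨q, hq'⟩
    rw [key, key]

theorem rho_dep (X : Finset ℕ) : ∃ F : Finset ℕ, ∀ S S' : ℕ → Bool,
    (∀ n ∈ F, S n = S' n) → C.rho S X = C.rho S' X := by
  obtain ⟨F, hF⟩ := C.rh_dep (X.erase (mx I X))
  refine ⟨F, fun S S' h => ?_⟩
  unfold rho
  rw [hF S S' h]

include C in
/-- **Freedom implies a perfect family.** -/
theorem perf : ∃ f : (ℕ → Bool) → Code L,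
    Continuous f ∧ (∀ x b, ty (toI (f x)) b = ty I b) ∧ ∀ x x', Iso (f x) (f x') → x = x' := by
  refine perf_of (fun S => C.NS S) (fun S => C.NS_adq S) (fun S => C.NS_loc S) ?_ C.Jg
    (fun N N' g hg h n => C.jg_iso hg h n) (fun S n => C.jg_iff S n)
  intro k R v
  obtain ⟨F, hF⟩ := C.rho_dep (Finset.univ.image v)
  refine ⟨F, fun S S' h => ?_⟩
  unfold NS
  rw [hF S S' h]

end Fr1

end Pool.Agent.H667.UF
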