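import Pool.Agent.H667.UF.Syn

set_option autoImplicit false

/-!
Perfect families of structures with the same types of points; the case of infinitely many profiles.
-/

namespace Pool.Agent.H667.UF

open FirstOrder Set
open Pool.Agent.H565R2.FO2 (Interp Code toI ofI toI_ofI Iso)

variable {L : FirstOrder.Language.{0, 0}}

theorem continuous_of_dep (f : (ℕ → Bool) → Bool)
    (h : ∃ F : Finset ℕ, ∀ S S' : ℕ → Bool, (∀ n ∈ F, S n = S' n) → f S = f S') :
    Continuous f := by
  classical
  obtain ⟨F, hF⟩ := h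
  let res : (ℕ → Bool) → (F → Bool) := fun S n => S n
  let ext : (F → Bool) → (ℕ → Bool) := fun z n => if h : n ∈ F then z ⟨n, h⟩ else false
  have h1 : f = (fun z => f (ext z)) ∘ res := by
    funext S
    refine hF _ _ fun n hn => ?_
    simp [ext, res, hn]
  rw [h1]
  exact continuous_of_discreteTopology.comp (continuous_pi fun n => continuous_apply _)

/-- A family which codes all sets of natural numbers is perfect. -/
theorem perf_of {I : Interp L ℕ} (N : (ℕ → Bool) → Interp L ℕ) (hA : ∀ S, Adq I (N S))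
    (hL : ∀ S, Loc I (N S))
    (hdep : ∀ k (R : L.Relations k) (v : Fin k → ℕ), ∃ F : Finset ℕ, ∀ S S' : ℕ → Bool,
      (∀ n ∈ F, S n = S' n) → (N S k R v ↔ N S' k R v))
    (P : Interp L ℕ → ℕ → Prop)
    (hP : ∀ (N N' : Interp L ℕ) (g : ℕ ≃ ℕ), CP I g →
      (∀ k (R : L.Relations k) (v : Fin k → ℕ), N k R v ↔ N' k R fun j => g (v j)) →
      ∀ n, P N n → P N' n)
    (hS : ∀ S n, P (N S) n ↔ S n = true) : ∃ f : (ℕ → Bool) → Code L, Continuous f ∧
    (∀ x b, ty (toI (f x)) b = ty I b) ∧ ∀ x x', Iso (f x) (f x') → x = x' := by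
  classical
  refine ⟨fun x => ofI (N x), ?_, ?_, ?_⟩
  · rw [continuous_pi_iff]
    rintro ⟨n, R, t⟩
    apply continuous_of_dep
    obtain ⟨F, hF⟩ := hdep n R t
    refine ⟨F, fun S S' h => ?_⟩
    simp only [ofI, decide_eq_decide]
    exact hF S S' h
  · intro x b
    rw [toI_ofI]
    exact ty_adq (hA x) (hL x) b
  · intro x x' hI
    obtain ⟨g, hg⟩ := hI
    have hiso : ∀ n (R : L.Relations n) (v : Fin n → ℕ), N x n R v ↔
        N x' n R fun k => g (v k) := by
      intro n R v
      have := hg n R v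
      simpa [ofI] using this
    have hcp : CP I g := by
      intro b
      rw [← ty_adq (hA x) (hL x) b, ← ty_adq (hA x') (hL x') (g b)]
      exact (ty_map g hiso b).symm
    have hiso' : ∀ n (R : L.Relations n) (v : Fin n → ℕ), N x' n R v ↔
        N x n R fun k => g.symm (v k) := by
      intro n R v
      rw [hiso]
      simp
    funext n
    rw [Bool.eq_iff_iff, ← hS x, ← hS x']
    exact ⟨hP _ _ g hcp hiso n, hP _ _ g.symm (cp_symm hcp) hiso' n⟩

/-- The type of the point is realized infinitely often. -/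
def InfT (I : Interp L ℕ) (x : ℕ) : Prop := {y | ty I y = ty I x}.Infinite

theorem infT_congr {I : Interp L ℕ} {x y : ℕ} (h : ty I x = ty I y) : InfT I x ↔ InfT I y := by
  unfold InfT
  rw [h]

theorem infT_cp {I : Interp L ℕ} {h : ℕ ≃ ℕ} (hh : CP I h) (x : ℕ) : InfT I (h x) ↔ InfT I x :=
  infT_congr (hh x)

/-- The points in types which are realized infinitely often. -/
noncomputable def fl (I : Interp L ℕ) (X : Finset ℕ) : Finset ℕ := by
  classical exact X.filter fun x => InfT I x

theorem mem_fl {I : Interp L ℕ} {X : Finset ℕ} {x : ℕ} : x ∈ fl I X ↔ x ∈ X ∧ InfT I x := by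
  classical
  unfold fl
  rw [Finset.mem_filter]

theorem fl_image {I : Interp L ℕ} {h : ℕ ≃ ℕ} (hh : CP I h) (X : Finset ℕ) :
    fl I (X.image h) = (fl I X).image h := by
  ext y
  rw [mem_fl, Finset.mem_image, Finset.mem_image]
  constructor
  · rintro ⟨⟨x, hx, rfl⟩, h2⟩
    exact ⟨x, mem_fl.2 ⟨hx, (infT_cp hh x).1 h2⟩, rfl⟩
  · rintro ⟨x, hx, rfl⟩
    rw [mem_fl] at hx
    exact ⟨⟨x, hx.1, rfl⟩, (infT_cp hh x).2 hx.2⟩

theorem fl_card {I : Interp L ℕ} {h : ℕ ≃ ℕ} (hh : CP I h) (X : Finset ℕ) :
    (fl I (X.image h)).card = (fl I X).card := by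
  rw [fl_image hh, Finset.card_image_of_injective _ h.injective]

/-- The words over the points in finite types and one further letter. -/
def Fw (I : Interp L ℕ) {k : ℕ} (v : Fin k → Option ℕ) : Prop :=
  ∀ j y, v j = some y → ¬ InfT I y

/-- The points `x` and `x'` have the same profile in `N`. -/
def PE (I N : Interp L ℕ) (x x' : ℕ) : Prop :=
  ∀ (k : ℕ) (R : L.Relations k) (v : Fin k → Option ℕ), Fw I v →
    (N k R (fun j => (v j).getD x) ↔ N k R fun j => (v j).getD x')

theorem pe_refl (I N : Interp L ℕ) (x : ℕ) : PE I N x x := fun _ _ _ _ => Iff.rfl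

theorem pe_symm {I N : Interp L ℕ} {x y : ℕ} (h : PE I N x y) : PE I N y x :=
  fun k R v hv => (h k R v hv).symm

theorem pe_trans {I N : Interp L ℕ} {x y z : ℕ} (h : PE I N x y) (h' : PE I N y z) : PE I N x z :=
  fun k R v hv => (h k R v hv).trans (h' k R v hv)

theorem getD_map (g : ℕ → ℕ) (o : Option ℕ) (x : ℕ) : g (o.getD x) = (o.map g).getD (g x) := by
  cases o <;> rfl

theorem pe_iso {I N N' : Interp L ℕ} {g : ℕ ≃ ℕ} (hg : CP I g)
    (h : ∀ k (R : L.Relations k) (v : Fin k → ℕ), N k R v ↔ N' k R fun j => g (v j)) (x x' : ℕ) :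
    PE I N x x' ↔ PE I N' (g x) (g x') := by
  constructor
  · intro hp k R v hv
    have h1 := hp k R (fun j => (v j).map g.symm) (by
      intro j y hy
      rw [Option.map_eq_some_iff] at hy
      obtain ⟨y', h1, rfl⟩ := hy
      rw [infT_cp (cp_symm hg)]
      exact hv j y' h1)
    rw [h, h] at h1
    have e : ∀ (o : Option ℕ) (x : ℕ), g ((o.map g.symm).getD x) = o.getD (g x) := by
      intro o x
      cases o <;> simp
    simp only [e] at h1
    exact h1
  · intro hp k R v hv
    rw [h, h]
    simp only [getD_map]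
    refine hp k R (fun j => (v j).map g) ?_
    intro j y hy
    rw [Option.map_eq_some_iff] at hy
    obtain ⟨y', h1, rfl⟩ := hy
    rw [infT_cp hg]
    exact hv j y' h1

/-- The type of `c` has infinitely many profiles. -/
def Fr2 (I : Interp L ℕ) (c : ℕ) : Prop :=
  ∀ T : Finset ℕ, ∃ x, ty I x = ty I c ∧ ∀ y ∈ T, ¬ PE I I x y

theorem Fr2.enum {I : Interp L ℕ} {c : ℕ} (hF : Fr2 I c) : ∃ r : ℕ → ℕ,
    (∀ n, ty I (r n) = ty I c) ∧ (∀ n m, PE I I (r n) (r m) → n = m) ∧
    ∀ x, ty I x = ty I c → ∃ n, PE I I x (r n) := by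
  classical
  let S : Type := {x // ty I x = ty I c}
  let s : Setoid S := ⟨fun x y => PE I I x.1 y.1, fun x => pe_refl _ _ _, fun h => pe_symm h,
    fun h h' => pe_trans h h'⟩
  have hinf : Infinite (Quotient s) := by
    by_contra hfin
    rw [not_infinite_iff_finite] at hfin
    let _ := Fintype.ofFinite (Quotient s)
    obtain ⟨x, hx, hx'⟩ := hF (Finset.univ.image fun q : Quotient s => (q.out).1)
    refine hx' ((Quotient.mk s ⟨x, hx⟩).out).1
      (Finset.mem_image_of_mem _ (Finset.mem_univ _)) ?_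
    exact pe_symm (Quotient.mk_out (s := s) ⟨x, hx⟩)
  obtain ⟨e⟩ : Nonempty (ℕ ≃ Quotient s) := nonempty_equiv_of_countable
  refine ⟨fun n => ((e n).out).1, fun n => ((e n).out).2, fun n m h => ?_, fun x hx => ?_⟩
  · apply e.injective
    rw [← Quotient.out_eq (e n), ← Quotient.out_eq (e m)]
    exact Quotient.sound h
  · refine ⟨e.symm (Quotient.mk s ⟨x, hx⟩), ?_⟩
    simp only [Equiv.apply_symm_apply]
    exact pe_symm (Quotient.mk_out (s := s) ⟨x, hx⟩)

theorem Fr2.inf {I : Interp L ℕ} {c : ℕ} (hF : Fr2 I c) : InfT I c := by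
  intro hfin
  obtain ⟨x, hx, hx'⟩ := hF hfin.toFinset
  exact hx' x (by simpa using hx) (pe_refl _ _ _)

/-- The structure obtained by changing profiles. -/
def Np (I : Interp L ℕ) (κ : ℕ → ℕ) : Interp L ℕ := fun k R v =>
  ((fl I (Finset.univ.image v)).card ≤ 1 ∧ I k R fun j => κ (v j)) ∨
    (¬ (fl I (Finset.univ.image v)).card ≤ 1 ∧ I k R v)

theorem np_le {I : Interp L ℕ} {κ : ℕ → ℕ} {k : ℕ} (R : L.Relations k) {v : Fin k → ℕ}
    (h : (fl I (Finset.univ.image v)).card ≤ 1) : Np I κ k R v ↔ I k R fun j => κ (v j) := by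
  unfold Np
  simp [h]

theorem np_gt {I : Interp L ℕ} {κ : ℕ → ℕ} {k : ℕ} (R : L.Relations k) {v : Fin k → ℕ}
    (h : ¬ (fl I (Finset.univ.image v)).card ≤ 1) : Np I κ k R v ↔ I k R v := by
  unfold Np
  simp [h]

section

variable {I : Interp L ℕ} {c : ℕ} {κ : ℕ → ℕ} (hc : InfT I c)
  (h1 : ∀ x, ty I x ≠ ty I c → κ x = x) (h2 : ∀ x, ty I x = ty I c → ty I (κ x) = ty I c)

include h1 h2 in
theorem kap_ty (x : ℕ) : ty I (κ x) = ty I x := by
  by_cases h : ty I x = ty I c
  · rw [h2 x h, h]
  · rw [h1 x h]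

include hc h1 in
theorem kap_fix {x : ℕ} (h : ¬ InfT I x) : κ x = x := by
  apply h1
  intro h'
  exact h ((infT_congr h').2 hc)

include hc h1 h2 in
theorem kap_inj {X : Finset ℕ} (h : (fl I X).card ≤ 1) : Set.InjOn κ X := by
  intro x hx y hy hxy
  have hx' : x ∈ X := hx
  have hy' : y ∈ X := hy
  have h5 : ty I y = ty I x :=
    (kap_ty h1 h2 y).symm.trans ((congrArg (ty I) hxy).symm.trans (kap_ty h1 h2 x))
  by_cases e1 : InfT I x
  · have e2 : InfT I y := (infT_congr h5).2 e1
    exact Finset.card_le_one.1 h x (mem_fl.2 ⟨hx', e1⟩) y (mem_fl.2 ⟨hy', e2⟩)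
  · have e2 : ¬ InfT I y := fun h => e1 ((infT_congr h5).1 h)
    rw [kap_fix hc h1 e1, kap_fix hc h1 e2] at hxy
    exact hxy

include hc h1 h2 in
theorem np_loc : Loc I (Np I κ) := by
  intro X
  by_cases h : (fl I X).card ≤ 1
  · obtain ⟨w, hw1, hw2⟩ := perm_ext I X κ (kap_inj hc h1 h2 h) fun x _ => kap_ty h1 h2 x
    refine ⟨w, hw1, fun k R v hv => ?_⟩
    rw [np_le R (by rw [hv]; exact h)]
    have : (fun j => κ (v j)) = fun j => w (v j) := by
      funext j
      exact (hw2 _ (hv ▸ Finset.mem_image_of_mem _ (Finset.mem_univ j))).symm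
    rw [this]
  · refine ⟨Equiv.refl ℕ, cp_one I, fun k R v hv => ?_⟩
    rw [np_gt R (by rw [hv]; exact h)]
    exact Iff.rfl

theorem image_comp {k : ℕ} {A : Finset ℕ} {v : Fin k → ℕ} (hv : Finset.univ.image v = A)
    (h : ℕ → ℕ) : Finset.univ.image (fun j => h (v j)) = A.image h := by
  rw [← hv, Finset.image_image]
  rfl

include hc h1 h2 in
/-- The profiles of the new structure are all the profiles of `I`. -/
theorem np_adq (h3 : ∀ x, ty I x = ty I c → ∃ y, ty I y = ty I c ∧ PE I I x (κ y)) :
    Adq I (Np I κ) := by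
  intro A z b hzb
  by_cases hA : (fl I A).card ≤ 1
  swap
  · obtain ⟨h, hh1, hh2, hh3⟩ := adq_self I A z b hzb
    refine ⟨h, hh1, hh2, fun k R v hv => ?_⟩
    rw [np_gt R (by rw [image_comp hv, fl_card hh1]; exact hA)]
    exact hh3 k R v hv
  by_cases hα : ∃ α ∈ A, ty I α = ty I c
  swap
  · push Not at hα
    obtain ⟨h, hh1, hh2, hh3⟩ := adq_self I A z b hzb
    refine ⟨h, hh1, hh2, fun k R v hv => ?_⟩
    rw [np_le R (by rw [image_comp hv, fl_card hh1]; exact hA)]
    have : (fun j => κ (h (v j))) = fun j => h (v j) := by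
      funext j
      apply h1
      rw [hh1]
      exact hα _ (hv ▸ Finset.mem_image_of_mem _ (Finset.mem_univ j))
    rw [this]
    exact hh3 k R v hv
  obtain ⟨α, hαA, hαc⟩ := hα
  have hαi : InfT I α := (infT_congr hαc).2 hc
  have huniq : ∀ y ∈ A, y ≠ α → ¬ InfT I y := by
    intro y hy hya hyi
    exact hya (Finset.card_le_one.1 hA y (mem_fl.2 ⟨hy, hyi⟩) α (mem_fl.2 ⟨hαA, hαi⟩))
  -- the main step
  obtain ⟨x', g, hx'c, hg1, hg3, hpe, hg4, hg5⟩ : ∃ (x' : ℕ) (g : ℕ ≃ ℕ), ty I x' = ty I c ∧
      CP I g ∧ (∀ (k : ℕ) (R : L.Relations k) (v : Fin k → ℕ), Finset.univ.image v = A →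
        (I k R (fun j => g (v j)) ↔ I k R v)) ∧ PE I I (g α) (κ x') ∧
      (ty I z ≠ ty I c → g z = b) ∧ (ty I z = ty I c → (z = α ↔ x' = b)) := by
    by_cases hz : ty I z = ty I c
    · by_cases hzα : z = α
      · have hb : ty I b = ty I c := hzb.symm.trans hz
        obtain ⟨g, hg1, hg2, hg3⟩ := adq_self I A α (κ b) (by rw [kap_ty h1 h2, hb, hαc])
        refine ⟨b, g, hb, hg1, hg3, by rw [hg2]; exact pe_refl _ _ _, fun h => absurd hz h,
          fun _ => ⟨fun _ => rfl, fun _ => hzα⟩⟩
      · obtain ⟨x', hx1, hx2⟩ := (hc.sdiff (Set.finite_singleton b)).nonempty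
        replace hx1 : ty I x' = ty I c := hx1
        replace hx2 : x' ≠ b := hx2
        obtain ⟨g, hg1, hg2, hg3⟩ := adq_self I A α (κ x') (by rw [kap_ty h1 h2, hx1, hαc])
        refine ⟨x', g, hx1, hg1, hg3, by rw [hg2]; exact pe_refl _ _ _, fun h => absurd hz h,
          fun _ => ⟨fun h => absurd h hzα, fun h => absurd h hx2⟩⟩
    · obtain ⟨g, hg1, hg2, hg3⟩ := adq_self I A z b hzb
      obtain ⟨x', hx1, hx2⟩ := h3 (g α) ((hg1 α).trans hαc)
      exact ⟨x', g, hx1, hg1, hg3, hx2, fun _ => hg2, fun h => absurd h hz⟩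
  have hgα : ty I (g α) = ty I c := (hg1 α).trans hαc
  have hs1 : CP I (Equiv.swap (g α) x') := cp_swap (hgα.trans hx'c.symm)
  let h2' : ℕ ≃ ℕ := g.trans (Equiv.swap (g α) x')
  have hh2 : CP I h2' := cp_trans hg1 hs1
  have hs2 : CP I (Equiv.swap (h2' z) b) := cp_swap ((hh2 z).trans hzb)
  let h : ℕ ≃ ℕ := h2'.trans (Equiv.swap (h2' z) b)
  have hα' : h α = x' := by
    have e1 : h2' α = x' := by
      show Equiv.swap (g α) x' (g α) = x'
      rw [Equiv.swap_apply_left]
    show Equiv.swap (h2' z) b (h2' α) = x'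
    by_cases hzα : z = α
    · rw [hzα, Equiv.swap_apply_left]
      exact ((hg5 (by rw [hzα]; exact hαc)).1 hzα).symm
    · rw [e1]
      apply Equiv.swap_apply_of_ne_of_ne
      · intro e
        apply hzα
        apply h2'.injective
        rw [e1, e]
      · intro e
        by_cases hz : ty I z = ty I c
        · exact hzα ((hg5 hz).2 e)
        · apply hz
          rw [hzb, ← e, hx'c]
  have hz' : h z = b := by
    show Equiv.swap (h2' z) b (h2' z) = b
    rw [Equiv.swap_apply_left]
  have hy' : ∀ y ∈ A, y ≠ α → h y = g y := by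
    intro y hy hya
    have hyi := huniq y hy hya
    have hyc : ty I (g y) ≠ ty I c := by
      intro e
      exact hyi ((infT_congr ((hg1 y).symm.trans e)).2 hc)
    have e1 : h2' y = g y := by
      show Equiv.swap (g α) x' (g y) = g y
      apply Equiv.swap_apply_of_ne_of_ne
      · intro e; exact hyc (by rw [e, hgα])
      · intro e; exact hyc (by rw [e, hx'c])
    show Equiv.swap (h2' z) b (h2' y) = g y
    rw [e1]
    by_cases hz : ty I z = ty I c
    · apply Equiv.swap_apply_of_ne_of_ne
      · intro e; exact hyc (by rw [e, hh2 z, hz])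
      · intro e; exact hyc (by rw [e, ← hzb, hz])
    · have e2 : h2' z = b := by
        show Equiv.swap (g α) x' (g z) = b
        rw [hg4 hz]
        apply Equiv.swap_apply_of_ne_of_ne
        · intro e; exact hz (by rw [hzb, e, hgα])
        · intro e; exact hz (by rw [hzb, e, hx'c])
      rw [e2, Equiv.swap_self]
      rfl
  refine ⟨h, cp_trans hh2 hs2, hz', fun k R v hv => ?_⟩
  have hm : ∀ j, v j ∈ A := fun j => hv ▸ Finset.mem_image_of_mem _ (Finset.mem_univ j)
  rw [np_le R (by rw [image_comp hv, fl_card (cp_trans hh2 hs2)]; exact hA)]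
  rw [← hg3 k R v hv]
  classical
  let u : Fin k → Option ℕ := fun j => if v j = α then none else some (g (v j))
  have hu : Fw I u := by
    intro j y hy
    by_cases e : v j = α
    · simp [u, e] at hy
    · simp only [u, if_neg e, Option.some.injEq] at hy
      subst hy
      rw [infT_cp hg1]
      exact huniq _ (hm j) e
  have e1 : (fun j => κ (h (v j))) = fun j => (u j).getD (κ x') := by
    funext j
    by_cases e : v j = α
    · simp only [u, if_pos e, e, hα', Option.getD_none]
    · simp only [u, if_neg e, Option.getD_some, hy' _ (hm j) e]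
      apply kap_fix hc h1
      rw [infT_cp hg1]
      exact huniq _ (hm j) e
  have e2 : (fun j => g (v j)) = fun j => (u j).getD (g α) := by
    funext j
    by_cases e : v j = α
    · simp only [u, if_pos e, e, Option.getD_none]
    · simp only [u, if_neg e, Option.getD_some]
  rw [e1, e2]
  exact (hpe k R u hu).symm

end

/-- Positions. -/
abbrev Pos : Type := ℕ ⊕ (Σ n : ℕ, Fin (n + 1)) ⊕ ℕ

/-- The index of the profile at a position. -/
def ixS (S : ℕ → Bool) : Pos → ℕ
  | .inl n => n
  | .inr (.inl p) => if S p.1 = true then p.1 + 1 else 0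
  | .inr (.inr _) => 0

/-- The positions of a profile. -/
def fib (S : ℕ → Bool) (m : ℕ) : Finset Pos :=
  insert (.inl (m + 1)) (if S m = true then
    Finset.univ.image (fun i : Fin (m + 1) => (.inr (.inl ⟨m, i⟩) : Pos)) else ∅)

theorem mem_fib (S : ℕ → Bool) (m : ℕ) (p : Pos) : p ∈ fib S m ↔ ixS S p = m + 1 := by
  unfold fib
  match p with
  | .inl n =>
    rw [Finset.mem_insert]
    split_ifs <;> simp [ixS]
  | .inr (.inl ⟨n, i⟩) =>
    rw [Finset.mem_insert]
    by_cases h : n = m
    · subst h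
      split_ifs with hS
      · simp [ixS, hS]
      · simp [ixS, hS]
    · constructor
      · intro h'
        exfalso
        split_ifs at h' with hS
        · rcases h' with h' | h'
          · simp at h'
          · rw [Finset.mem_image] at h'
            obtain ⟨j, -, hj⟩ := h'
            simp only [Sum.inr.injEq, Sum.inl.injEq] at hj
            exact h (congrArg Sigma.fst hj).symm
        · simp at h'
      · intro h'
        exfalso
        simp only [ixS] at h'
        split_ifs at h'
        omega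
  | .inr (.inr j) =>
    rw [Finset.mem_insert]
    split_ifs <;> simp [ixS]

theorem card_fib (S : ℕ → Bool) (m : ℕ) :
    (fib S m).card = if S m = true then m + 2 else 1 := by
  unfold fib
  rw [Finset.card_insert_of_notMem (by split_ifs <;> simp)]
  split_ifs
  · rw [Finset.card_image_of_injective _ (by
      intro i j h
      simpa using h), Finset.card_univ, Fintype.card_fin]
  · rfl

/-- The invariant: some profile in the type of `c` has exactly `m` points. -/
def Jp (I : Interp L ℕ) (c : ℕ) (N : Interp L ℕ) (n : ℕ) : Prop :=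
  ∃ x, ty I x = ty I c ∧ ∃ T : Finset ℕ, T.card = n + 2 ∧
    ∀ x', x' ∈ T ↔ ty I x' = ty I c ∧ PE I N x x'

theorem jp_iso {I : Interp L ℕ} {c : ℕ} {N N' : Interp L ℕ} {g : ℕ ≃ ℕ} (hg : CP I g)
    (h : ∀ k (R : L.Relations k) (v : Fin k → ℕ), N k R v ↔ N' k R fun j => g (v j)) (n : ℕ)
    (hJ : Jp I c N n) : Jp I c N' n := by
  obtain ⟨x, hx, T, hT, hT'⟩ := hJ
  refine ⟨g x, by rw [hg, hx], T.map g.toEmbedding, by rw [Finset.card_map, hT], fun x' => ?_⟩
  rw [Finset.mem_map_equiv, hT', cp_symm hg, pe_iso hg h]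
  simp

/-- **Infinitely many profiles.** -/
theorem Fr2.perf {I : Interp L ℕ} {c : ℕ} (hF : Fr2 I c) : ∃ f : (ℕ → Bool) → Code L,
    Continuous f ∧ (∀ x b, ty (toI (f x)) b = ty I b) ∧ ∀ x x', Iso (f x) (f x') → x = x' := by
  classical
  obtain ⟨r, hr1, hr2, hr3⟩ := hF.enum
  have hc := hF.inf
  let S : Type := {x // ty I x = ty I c}
  have hSinf : Infinite S := hc.to_subtype
  obtain ⟨pos⟩ : Nonempty (S ≃ Pos) := nonempty_equiv_of_countable
  let κ : (ℕ → Bool) → ℕ → ℕ := fun z x => if h : ty I x = ty I c then r (ixS z (pos ⟨x, h⟩))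
    else x
  have k1 : ∀ z x, ty I x ≠ ty I c → κ z x = x := fun z x h => by
    simp only [κ]; rw [dif_neg h]
  have k1' : ∀ z x (h : ty I x = ty I c), κ z x = r (ixS z (pos ⟨x, h⟩)) := fun z x h => by
    simp only [κ]; rw [dif_pos h]
  have k2 : ∀ z x, ty I x = ty I c → ty I (κ z x) = ty I c := fun z x h => by
    rw [k1' z x h]; exact hr1 _
  have k3 : ∀ z x, ty I x = ty I c → ∃ y, ty I y = ty I c ∧ PE I I x (κ z y) := by
    intro z x hx
    obtain ⟨n, hn⟩ := hr3 x hx
    refine ⟨(pos.symm (.inl n)).1, (pos.symm (.inl n)).2, ?_⟩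
    rw [k1' z _ (pos.symm (.inl n)).2]
    simpa [ixS] using hn
  -- the profiles of the new structure
  have hpe : ∀ z x x', ty I x = ty I c → ty I x' = ty I c →
      (PE I (Np I (κ z)) x x' ↔ κ z x = κ z x') := by
    intro z x x' hx hx'
    have hi : InfT I x := (infT_congr hx).2 hc
    have e : ∀ (y : ℕ) (k : ℕ) (R : L.Relations k) (v : Fin k → Option ℕ), Fw I v →
        (Np I (κ z) k R (fun j => (v j).getD y) ↔ I k R fun j => (v j).getD (κ z y)) := by
      intro y k R v hv
      have hle : (fl I (Finset.univ.image fun j => (v j).getD y)).card ≤ 1 := by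
        rw [Finset.card_le_one]
        have : ∀ w ∈ fl I (Finset.univ.image fun j => (v j).getD y), w = y := by
          intro w hw
          obtain ⟨h1, h2⟩ := mem_fl.1 hw
          obtain ⟨j, -, rfl⟩ := Finset.mem_image.1 h1
          cases hvj : v j with
          | none => rfl
          | some w' =>
            rw [hvj, Option.getD_some] at h2
            exact absurd h2 (hv j w' hvj)
        intro a ha b hb
        rw [this a ha, this b hb]
      rw [np_le R hle]
      have : (fun j => κ z ((v j).getD y)) = fun j => (v j).getD (κ z y) := by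
        funext j
        cases hvj : v j with
        | none => rfl
        | some w' =>
          rw [Option.getD_some, Option.getD_some]
          exact kap_fix hc (k1 z) (hv j w' hvj)
      rw [this]
    constructor
    · intro h
      have h' : PE I I (κ z x) (κ z x') := by
        intro k R v hv
        rw [← e x k R v hv, ← e x' k R v hv]
        exact h k R v hv
      rw [k1' z x hx, k1' z x' hx'] at h' ⊢
      rw [hr2 _ _ h']
    · intro h k R v hv
      rw [e x k R v hv, e x' k R v hv, h]
  refine perf_of (fun z => Np I (κ z)) (fun z => np_adq hc (k1 z) (k2 z) (k3 z))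
    (fun z => np_loc hc (k1 z) (k2 z)) ?_ (Jp I c) (fun N N' g hg h n => jp_iso hg h n) ?_
  · intro k R v
    -- finite dependence
    have hd : ∀ x, ∃ F : Finset ℕ, ∀ z z' : ℕ → Bool, (∀ n ∈ F, z n = z' n) → κ z x = κ z' x := by
      intro x
      by_cases h : ty I x = ty I c
      · cases hp : pos ⟨x, h⟩ with
        | inl n =>
          refine ⟨∅, fun z z' _ => ?_⟩
          rw [k1' z x h, k1' z' x h, hp]; rfl
        | inr q =>
          cases q with
          | inl p =>
            refine ⟨{p.1}, fun z z' hz => ?_⟩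
            rw [k1' z x h, k1' z' x h, hp]
            simp only [ixS]
            rw [hz p.1 (Finset.mem_singleton_self _)]
          | inr j =>
            refine ⟨∅, fun z z' _ => ?_⟩
            rw [k1' z x h, k1' z' x h, hp]; rfl
      · exact ⟨∅, fun z z' _ => by rw [k1 z x h, k1 z' x h]⟩
    choose F hF using hd
    refine ⟨Finset.univ.biUnion fun j => F (v j), fun z z' hz => ?_⟩
    have : (fun j => κ z (v j)) = fun j => κ z' (v j) := by
      funext j
      exact hF _ _ _ fun n hn => hz n (Finset.mem_biUnion.2 ⟨j, Finset.mem_univ _, hn⟩)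
    simp only [Np]
    rw [this]
  · intro z n
    have hval : ∀ x x' (hx : ty I x = ty I c) (hx' : ty I x' = ty I c),
        (PE I (Np I (κ z)) x x' ↔ ixS z (pos ⟨x, hx⟩) = ixS z (pos ⟨x', hx'⟩)) := by
      intro x x' hx hx'
      rw [hpe z x x' hx hx', k1' z x hx, k1' z x' hx']
      exact ⟨fun h => hr2 _ _ (h ▸ pe_refl _ _ _), fun h => by rw [h]⟩
    have hfib : ∀ (x : ℕ) (hx : ty I x = ty I c) (m : ℕ), ixS z (pos ⟨x, hx⟩) = m + 1 →
        ∀ x', x' ∈ (fib z m).image (fun p => (pos.symm p).1) ↔
          ty I x' = ty I c ∧ PE I (Np I (κ z)) x x' := by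
      intro x hx m hm x'
      rw [Finset.mem_image]
      constructor
      · rintro ⟨p, hp, rfl⟩
        rw [mem_fib] at hp
        refine ⟨(pos.symm p).2, (hval _ _ hx (pos.symm p).2).2 ?_⟩
        rw [hm, ← hp]
        simp
      · rintro ⟨h1, h2⟩
        rw [hval x x' hx h1, hm] at h2
        exact ⟨pos ⟨x', h1⟩, (mem_fib _ _ _).2 h2.symm, by simp⟩
    have hcard : ∀ m, ((fib z m).image (fun p => (pos.symm p).1)).card =
        if z m = true then m + 2 else 1 := by
      intro m
      rw [Finset.card_image_of_injective _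
        (show Function.Injective fun p => (pos.symm p).1 from
          Subtype.val_injective.comp pos.symm.injective), card_fib]
    constructor
    · rintro ⟨x, hx, T, hT, hT'⟩
      cases hm : ixS z (pos ⟨x, hx⟩) with
      | zero =>
        exfalso
        let e : ℕ ↪ ℕ := ⟨fun j => (pos.symm (.inr (.inr j))).1, fun i j h => by
          have := pos.symm.injective (Subtype.val_injective h)
          simpa using this⟩
        have hsub : ∀ j, e j ∈ T := by
          intro j
          rw [hT']
          refine ⟨(pos.symm (.inr (.inr j))).2, (hval _ _ hx (pos.symm (.inr (.inr j))).2).2 ?_⟩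
          rw [hm]
          simp [ixS]
        exact (Set.infinite_range_of_injective e.injective)
          (T.finite_toSet.subset (by rintro _ ⟨j, rfl⟩; exact hsub j))
      | succ m =>
        have hTe : T = (fib z m).image (fun p => (pos.symm p).1) := by
          ext x'
          rw [hT', hfib x hx m hm]
        rw [hTe, hcard] at hT
        split_ifs at hT with hz
        · have : m = n := by omega
          rw [← this]; exact hz
        · omega
    · intro hn
      let p : Pos := .inl (n + 1)
      have hp : ixS z (pos ⟨(pos.symm p).1, (pos.symm p).2⟩) = n + 1 := by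
        simp [p, ixS]
      refine ⟨(pos.symm p).1, (pos.symm p).2, (fib z n).image (fun p => (pos.symm p).1), ?_,
        hfib _ _ n hp⟩
      rw [hcard, if_pos hn]

end Pool.Agent.H667.UF
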