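import Pool.Graph.R_seed8.H834V.Adapt

set_option autoImplicit false

/-!
The uniform one-dimensional fragment with equality of infinitary logic, and the permutations which
preserve the types of all points.
-/

namespace Pool.Agent.H667.UF

open FirstOrder Set
open Pool.Agent.H565R2.FO2 (Interp Code toI ofI toI_ofI Iso)

/-- The formulas with variables `x₀, …, xₙ₋₁` whose relational atoms contain exactly the variables
in `V`, apart from subformulas with one free variable. -/
inductive Fo (L : FirstOrder.Language.{0, 0}) : (n : ℕ) → Finset (Fin n) → Type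
  | rel {n : ℕ} {V : Finset (Fin n)} {k : ℕ} (R : L.Relations k) (s : Fin k → Fin n)
      (hs : Finset.univ.image s = V) : Fo L n V
  | eq {n : ℕ} {V : Finset (Fin n)} (i j : Fin n) : Fo L n V
  | one {n : ℕ} {V : Finset (Fin n)} (j : Fin n) (φ : Fo L 1 Finset.univ) : Fo L n V
  | neg {n : ℕ} {V : Finset (Fin n)} (φ : Fo L n V) : Fo L n V
  | inf {n : ℕ} {V : Finset (Fin n)} (e : ℕ → Fo L n V) : Fo L n V
  | ex {n : ℕ} {V : Finset (Fin (n + 1))} (φ : Fo L (n + 1) V) : Fo L 1 Finset.univ

variable {L : FirstOrder.Language.{0, 0}} {M M' : Type}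

/-- Satisfaction. -/
def Sat (I : Interp L M) : ∀ {n : ℕ} {V : Finset (Fin n)}, Fo L n V → (Fin n → M) → Prop
  | _, _, .rel (k := k) R s _, v => I k R (fun j => v (s j))
  | _, _, .eq i j, v => v i = v j
  | _, _, .one j φ, v => Sat I φ (fun _ => v j)
  | _, _, .neg φ, v => ¬ Sat I φ v
  | _, _, .inf e, v => ∀ m, Sat I (e m) v
  | _, _, .ex (n := n) φ, v => ∃ b : Fin (n + 1) → M, b 0 = v 0 ∧ Sat I φ b

/-- The type of a point. -/
def ty (I : Interp L M) (a : M) : Set (Fo L 1 Finset.univ) := {φ | Sat I φ fun _ => a}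

theorem sat_of_ty {I : Interp L M} {I' : Interp L M'} {a : M} {a' : M'} (h : ty I a = ty I' a')
    (φ : Fo L 1 Finset.univ) : Sat I φ (fun _ => a) ↔ Sat I' φ fun _ => a' :=
  Iff.of_eq (congrArg (fun s => φ ∈ s) h)

theorem sat_map {I : Interp L M} {I' : Interp L M'} (g : M ≃ M')
    (hg : ∀ n (R : L.Relations n) (v : Fin n → M), I n R v ↔ I' n R (fun k => g (v k)))
    {n : ℕ} {V : Finset (Fin n)} (φ : Fo L n V) :
    ∀ v : Fin n → M, Sat I φ v ↔ Sat I' φ fun i => g (v i) := by
  induction φ with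
  | rel R s hs => exact fun v => hg _ R _
  | eq i j => exact fun v => g.injective.eq_iff.symm
  | one j φ ih => exact fun v => ih _
  | neg φ ih => exact fun v => not_congr (ih v)
  | inf e ih => exact fun v => forall_congr' fun m => ih m v
  | ex φ ih =>
    intro v
    constructor
    · rintro ⟨b, h1, h2⟩
      exact ⟨fun i => g (b i), congrArg g h1, (ih b).1 h2⟩
    · rintro ⟨b, h1, h2⟩
      refine ⟨fun i => g.symm (b i), ?_, (ih _).2 ?_⟩
      · show g.symm (b 0) = v 0
        rw [h1]; simp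
      · simpa using h2

theorem ty_map {I : Interp L M} {I' : Interp L M'} (g : M ≃ M')
    (hg : ∀ n (R : L.Relations n) (v : Fin n → M), I n R v ↔ I' n R (fun k => g (v k))) (a : M) :
    ty I a = ty I' (g a) := by
  ext φ
  exact sat_map g hg φ _

/-- Countable structures are homogeneous. -/
theorem hom_ext (I : Interp L M) (I' : Interp L M') [Countable M'] {a : M} {a' : M'}
    (h : ty I a = ty I' a') {n : ℕ} (V : Finset (Fin (n + 1))) (b : Fin (n + 1) → M)
    (hb : b 0 = a) : ∃ b' : Fin (n + 1) → M', b' 0 = a' ∧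
      ∀ φ : Fo L (n + 1) V, Sat I φ b ↔ Sat I' φ b' := by
  classical
  by_contra hcon
  push Not at hcon
  have h1 : ∀ b' : Fin (n + 1) → M', b' 0 = a' → ∃ φ : Fo L (n + 1) V,
      Sat I φ b ∧ ¬ Sat I' φ b' := by
    intro b' hb'
    obtain ⟨φ, hφ⟩ := hcon b' hb'
    rcases hφ with ⟨h1, h2⟩ | ⟨h1, h2⟩
    · exact ⟨φ, h1, h2⟩
    · exact ⟨φ.neg, h1, fun h3 => h3 h2⟩
  have h2 : ∀ b' : Fin (n + 1) → M', ∃ φ : Fo L (n + 1) V,
      Sat I φ b ∧ (b' 0 = a' → ¬ Sat I' φ b') := by
    intro b'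
    by_cases hb' : b' 0 = a'
    · obtain ⟨φ, h3, h4⟩ := h1 b' hb'
      exact ⟨φ, h3, fun _ => h4⟩
    · exact ⟨.eq 0 0, rfl, fun h => absurd h hb'⟩
  choose F hF using h2
  have : Nonempty (Fin (n + 1) → M') := ⟨fun _ => a'⟩
  obtain ⟨e, he⟩ := exists_surjective_nat (Fin (n + 1) → M')
  have h3 : Sat I (.ex (.inf fun m => F (e m))) (fun _ => a) := ⟨b, hb, fun m => (hF (e m)).1⟩
  rw [sat_of_ty h] at h3
  obtain ⟨b', hb1, hb2⟩ := h3
  obtain ⟨m, rfl⟩ := he b'
  exact (hF (e m)).2 hb1 (hb2 m)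

/-- The permutation preserves types. -/
def CP (I : Interp L ℕ) (h : ℕ ≃ ℕ) : Prop := ∀ x, ty I (h x) = ty I x

theorem cp_one (I : Interp L ℕ) : CP I (Equiv.refl ℕ) := fun _ => rfl

theorem cp_trans {I : Interp L ℕ} {g h : ℕ ≃ ℕ} (hg : CP I g) (hh : CP I h) : CP I (g.trans h) :=
  fun x => (hh (g x)).trans (hg x)

theorem cp_symm {I : Interp L ℕ} {g : ℕ ≃ ℕ} (hg : CP I g) : CP I g.symm := by
  intro x
  have := hg (g.symm x)
  rw [Equiv.apply_symm_apply] at this
  exact this.symm

theorem cp_swap {I : Interp L ℕ} {x y : ℕ} (h : ty I x = ty I y) : CP I (Equiv.swap x y) := by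
  intro z
  by_cases h1 : z = x
  · subst h1; rw [Equiv.swap_apply_left]; exact h.symm
  · by_cases h2 : z = y
    · subst h2; rw [Equiv.swap_apply_right]; exact h
    · rw [Equiv.swap_apply_of_ne_of_ne h1 h2]

/-- Partial injections which preserve types extend. -/
theorem perm_ext (I : Interp L ℕ) (A : Finset ℕ) (f : ℕ → ℕ) (hinj : Set.InjOn f A)
    (hty : ∀ x ∈ A, ty I (f x) = ty I x) : ∃ h : ℕ ≃ ℕ, CP I h ∧ ∀ x ∈ A, h x = f x := by
  classical
  induction A using Finset.induction_on with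
  | empty => exact ⟨Equiv.refl ℕ, cp_one I, by simp⟩
  | insert a A ha ih =>
    obtain ⟨h, h1, h2⟩ := ih (hinj.mono (by simp)) fun x hx => hty x (Finset.mem_insert_of_mem hx)
    have h3 : ty I (h a) = ty I (f a) :=
      (h1 a).trans (hty a (Finset.mem_insert_self _ _)).symm
    refine ⟨h.trans (Equiv.swap (h a) (f a)), cp_trans h1 (cp_swap h3), fun x hx => ?_⟩
    rw [Equiv.trans_apply]
    rcases Finset.mem_insert.1 hx with rfl | hx'
    · rw [Equiv.swap_apply_left]
    · have hxa : x ≠ a := by rintro rfl; exact ha hx'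
      have e1 : h x ≠ h a := fun e => hxa (h.injective e)
      have e2 : h x ≠ f a := by
        rw [h2 x hx']
        intro e
        exact hxa (hinj (by simp [hx']) (by simp) e)
      rw [Equiv.swap_apply_of_ne_of_ne e1 e2]
      exact h2 x hx'

/-- The structure `N` contains, for every finite set and every pair of points of the same type,
a copy of the relations of `I` on this set. -/
def Adq (I N : Interp L ℕ) : Prop := ∀ (A : Finset ℕ) (z b : ℕ), ty I z = ty I b →
  ∃ h : ℕ ≃ ℕ, CP I h ∧ h z = b ∧ ∀ (k : ℕ) (R : L.Relations k) (v : Fin k → ℕ),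
    Finset.univ.image v = A → (N k R (fun j => h (v j)) ↔ I k R v)

/-- The relations of `N` on every finite set are copied from `I`. -/
def Loc (I N : Interp L ℕ) : Prop := ∀ X : Finset ℕ, ∃ w : ℕ ≃ ℕ, CP I w ∧
  ∀ (k : ℕ) (R : L.Relations k) (v : Fin k → ℕ), Finset.univ.image v = X →
    (N k R v ↔ I k R fun j => w (v j))

/-- Homogeneity. -/
theorem adq_self (I : Interp L ℕ) : Adq I I := by
  classical
  intro A z b hzb
  let n := A.card
  let en : Fin n → ℕ := fun i => (A.equivFin.symm i : ℕ)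
  let t : Fin (n + 1) → ℕ := Fin.cons z en
  obtain ⟨t', h0, h1⟩ := hom_ext I I hzb (Finset.univ.image Fin.succ) t rfl
  have heq : ∀ i j, t i = t j ↔ t' i = t' j := fun i j => h1 (.eq i j)
  have hty : ∀ i, ty I (t' i) = ty I (t i) := by
    intro i
    ext φ
    exact (h1 (.one i φ)).symm
  have hf : t'.FactorsThrough t := fun i j h => (heq i j).1 h
  let f : ℕ → ℕ := Function.extend t t' id
  have hft : ∀ i, f (t i) = t' i := fun i => hf.extend_apply id i
  obtain ⟨h, hc, hh⟩ := perm_ext I (Finset.univ.image t) f (by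
    intro x hx y hy hxy
    simp only [Finset.coe_image, Finset.coe_univ, Set.image_univ, Set.mem_range] at hx hy
    obtain ⟨i, rfl⟩ := hx
    obtain ⟨j, rfl⟩ := hy
    rw [hft, hft] at hxy
    exact (heq i j).2 hxy) (by
    intro x hx
    obtain ⟨i, -, rfl⟩ := Finset.mem_image.1 hx
    rw [hft, hty])
  have hht : ∀ i, h (t i) = t' i := fun i => by
    rw [hh _ (Finset.mem_image_of_mem _ (Finset.mem_univ i)), hft]
  refine ⟨h, hc, ?_, ?_⟩
  · have := hht 0
    rw [h0] at this
    exact this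
  · intro k R v hv
    have hm : ∀ j, v j ∈ A := fun j => hv ▸ Finset.mem_image_of_mem _ (Finset.mem_univ j)
    let s : Fin k → Fin (n + 1) := fun j => Fin.succ (A.equivFin ⟨v j, hm j⟩)
    have hs : Finset.univ.image s = Finset.univ.image Fin.succ := by
      ext i
      simp only [Finset.mem_image, Finset.mem_univ, true_and]
      constructor
      · rintro ⟨j, rfl⟩
        exact ⟨_, rfl⟩
      · rintro ⟨i', rfl⟩
        have h2 : (A.equivFin.symm i' : ℕ) ∈ Finset.univ.image v := by
          rw [hv]; exact (A.equivFin.symm i').2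
        obtain ⟨j, -, hj⟩ := Finset.mem_image.1 h2
        refine ⟨j, ?_⟩
        show Fin.succ (A.equivFin ⟨v j, hm j⟩) = _
        congr 1
        have : (⟨v j, hm j⟩ : A) = A.equivFin.symm i' := Subtype.ext hj
        rw [this, Equiv.apply_symm_apply]
    have hts : ∀ j, t (s j) = v j := by
      intro j
      show (Fin.cons z en : Fin (n + 1) → ℕ) (Fin.succ _) = _
      rw [Fin.cons_succ]
      show (A.equivFin.symm (A.equivFin ⟨v j, hm j⟩) : ℕ) = _
      rw [Equiv.symm_apply_apply]
    have h3 := h1 (.rel R s hs)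
    simp only [Sat] at h3
    have e1 : (fun j => t (s j)) = v := funext hts
    have e2 : (fun j => t' (s j)) = fun j => h (v j) := by
      funext j
      rw [← hht, hts]
    rw [e1, e2] at h3
    exact h3.symm

/-- **Transfer.** -/
theorem transfer {I N : Interp L ℕ} (hA : Adq I N) (hL : Loc I N) {n : ℕ} {V : Finset (Fin n)}
    (φ : Fo L n V) : ∀ b b' : Fin n → ℕ, (∀ i j, b i = b j ↔ b' i = b' j) →
      (∀ i, ty I (b i) = ty I (b' i)) →
      (∀ (k : ℕ) (R : L.Relations k) (s : Fin k → Fin n), Finset.univ.image s = V →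
        (N k R (fun j => b (s j)) ↔ I k R fun j => b' (s j))) →
      (Sat N φ b ↔ Sat I φ b') := by
  classical
  induction φ with
  | rel R s hs => exact fun b b' _ _ h => h _ R s hs
  | eq i j => exact fun b b' h _ _ => h i j
  | @one n V j φ ih =>
    intro b b' _ h2 _
    refine ih _ _ (fun i j => by simp) (fun _ => h2 j) ?_
    intro k R s hs
    obtain ⟨w, hw1, hw2⟩ := hL (Finset.univ.image fun _ : Fin k => b j)
    rw [hw2 k R (fun _ => b j) rfl]
    have h3 : ty I (w (b j)) = ty I (b' j) := (hw1 _).trans (h2 j)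
    exact sat_of_ty h3 (.rel R s hs)
  | neg φ ih => exact fun b b' h1 h2 h3 => not_congr (ih b b' h1 h2 h3)
  | inf e ih => exact fun b b' h1 h2 h3 => forall_congr' fun m => ih m b b' h1 h2 h3
  | @ex n V φ ih =>
    intro b b' h1 h2 h3
    constructor
    · rintro ⟨c, hc0, hc⟩
      obtain ⟨w, hw1, hw2⟩ := hL (V.image c)
      obtain ⟨c', hc1, hc2⟩ := hom_ext I I
        (show ty I (w (c 0)) = ty I (b' 0) from (hw1 _).trans (hc0 ▸ h2 0)) V
        (fun i => w (c i)) rfl
      refine ⟨c', hc1, (hc2 φ).1 ?_⟩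
      refine (ih c (fun i => w (c i)) (fun i j => w.injective.eq_iff.symm)
        (fun i => (hw1 _).symm) fun k R s hs => ?_).1 hc
      refine hw2 k R _ ?_
      rw [← hs, Finset.image_image]
      rfl
    · rintro ⟨c', hc0, hc⟩
      obtain ⟨h, hh1, hh2, hh3⟩ := hA (V.image c') (c' 0) (b 0) (by rw [hc0]; exact (h2 0).symm)
      refine ⟨fun i => h (c' i), hh2, ?_⟩
      refine (ih (fun i => h (c' i)) c' (fun i j => h.injective.eq_iff) (fun i => hh1 _)
        fun k R s hs => ?_).2 hc
      refine hh3 k R _ ?_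
      rw [← hs, Finset.image_image]
      rfl

theorem ty_adq {I N : Interp L ℕ} (hA : Adq I N) (hL : Loc I N) (b : ℕ) : ty N b = ty I b := by
  ext φ
  refine transfer hA hL φ _ _ (fun i j => by simp) (fun _ => rfl) ?_
  intro k R s hs
  obtain ⟨w, hw1, hw2⟩ := hL (Finset.univ.image fun _ : Fin k => b)
  rw [hw2 k R (fun _ => b) rfl]
  exact sat_of_ty (hw1 b) (.rel R s hs)

end Pool.Agent.H667.UF
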